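import Pool.Agent.LQG65.Space

/-! Circle averages of test functions, and measurability of integrals of continuous paths. -/

open MeasureTheory Filter Topology Metric

namespace Pool.Agent.LQG65

variable {D : Set ℂ}

theorem circleIntegrable_tf (φ : TestFn D) (x : ℂ) (r : ℝ) :
    CircleIntegrable (φ : ℂ → ℝ) x r :=
  ContinuousOn.circleIntegrable' (Continuous.continuousOn (tf_continuous φ))

theorem continuous_circleAverage (φ : TestFn D) (r : ℝ) :
    Continuous fun x => Real.circleAverage (φ : ℂ → ℝ) x r := by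
  have h1 : Continuous (Function.uncurry fun (x : ℂ) (θ : ℝ) => (φ : ℂ → ℝ) (circleMap x r θ)) := by
    refine (tf_continuous φ).comp ?_
    unfold circleMap
    fun_prop
  have h2 : Continuous fun x : ℂ => ∫ θ in (0 : ℝ)..2 * Real.pi,
      (φ : ℂ → ℝ) (circleMap x r θ) :=
    intervalIntegral.continuous_parametric_intervalIntegral_of_continuous' h1 _ _
  exact h2.const_smul ((2 * Real.pi)⁻¹ : ℝ)

theorem circleAverage_close (φ : TestFn D) {δ : ℝ} (hδ : 0 < δ) :
    ∃ r₀ > 0, ∀ r, 0 < r → r < r₀ → ∀ x,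
      |Real.circleAverage (φ : ℂ → ℝ) x r - (φ : ℂ → ℝ) x| ≤ δ := by
  have huc : UniformContinuous (φ : ℂ → ℝ) :=
    (tf_compact φ).uniformContinuous_of_continuous (tf_continuous φ)
  obtain ⟨r₀, hr₀, h⟩ := Metric.uniformContinuous_iff.mp huc δ hδ
  refine ⟨r₀, hr₀, fun r hr hr' x => ?_⟩
  have hclose : ∀ y ∈ sphere x |r|, |(φ : ℂ → ℝ) y - (φ : ℂ → ℝ) x| < δ := by
    intro y hy
    rw [mem_sphere, abs_of_pos hr] at hy
    have h1 : dist ((φ : ℂ → ℝ) y) ((φ : ℂ → ℝ) x) < δ := h (by rw [hy]; exact hr')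
    rwa [Real.dist_eq] at h1
  rw [abs_le]
  constructor
  · have h1 : Real.circleAverage (fun y => -(φ : ℂ → ℝ) y) x r ≤ -(φ : ℂ → ℝ) x + δ := by
      refine Real.circleAverage_mono_on_of_le_circle (circleIntegrable_tf φ x r).neg ?_
      intro y hy
      have h2 := abs_lt.mp (hclose y hy)
      linarith
    have h2 : Real.circleAverage (fun y => -(φ : ℂ → ℝ) y) x r =
        - Real.circleAverage (φ : ℂ → ℝ) x r := by
      unfold Real.circleAverage
      simp
    linarith
  · have h1 : Real.circleAverage (φ : ℂ → ℝ) x r ≤ (φ : ℂ → ℝ) x + δ := by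
      refine Real.circleAverage_mono_on_of_le_circle (circleIntegrable_tf φ x r) ?_
      intro y hy
      have h2 := abs_lt.mp (hclose y hy)
      linarith
    linarith

/-- Room around a compact support. -/
theorem exists_room (hD : IsOpen D) {f : ℂ → ℝ} (hf : HasCompactSupport f)
    (hfD : tsupport f ⊆ D) : ∃ r₀ > 0, ∀ r, r < r₀ → ∃ N : Set ℂ, IsOpen N ∧ tsupport f ⊆ N ∧
      ∀ x ∈ N, closedBall x r ⊆ D := by
  obtain ⟨δ, hδ, hsub⟩ := (IsCompact.exists_thickening_subset_open hf hD hfD)
  refine ⟨δ / 2, half_pos hδ, fun r hr => ⟨thickening (δ / 2) (tsupport f), isOpen_thickening,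
    self_subset_thickening (half_pos hδ) _, fun x hx y hy => hsub ?_⟩⟩
  rw [mem_thickening_iff] at hx ⊢
  obtain ⟨z, hz, hxz⟩ := hx
  refine ⟨z, hz, ?_⟩
  rw [mem_closedBall] at hy
  have := dist_triangle y x z
  linarith

/-- Product of a compactly supported continuous function with one continuous near the support. -/
theorem continuous_mul_of {f g : ℂ → ℝ} (hf : Continuous f) {N : Set ℂ} (hN : IsOpen N)
    (hsub : tsupport f ⊆ N) (hg : ContinuousOn g N) : Continuous fun x => f x * g x := by
  rw [continuous_iff_continuousAt]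
  intro x
  by_cases hx : x ∈ tsupport f
  · exact hf.continuousAt.mul (hg.continuousAt (hN.mem_nhds (hsub hx)))
  · have h1 : (fun y => f y * g y) =ᶠ[𝓝 x] fun _ => (0 : ℝ) := by
      filter_upwards [(isClosed_tsupport f).isOpen_compl.mem_nhds hx] with y hy
      rw [image_eq_zero_of_notMem_tsupport hy, zero_mul]
    exact (continuousAt_const.congr h1.symm)

theorem measurable_integral_of_continuous {Ω : Type*} {m : MeasurableSpace Ω} (u : ℂ → Ω → ℝ)
    (hc : ∀ ω, Continuous fun x => u x ω) (hm : ∀ x, Measurable (u x)) :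
    Measurable fun ω => ∫ x, u x ω := by
  have h1 : Measurable (Function.uncurry u) :=
    measurable_uncurry_of_continuous_of_measurable hc hm
  exact (h1.stronglyMeasurable.integral_prod_left').measurable

end Pool.Agent.LQG65
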