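import Pool.Agent.LQG65.Spec

/-! Compactness: when the min-max values tend to infinity, bounded sequences are Cauchy for the
second form along every ultrafilter. -/

open Module Submodule Filter Topology

namespace Pool.Agent.LQG65

variable {W : Type*} [NormedAddCommGroup W] [InnerProductSpace ℝ W]
variable (b : W →ₗ[ℝ] W →ₗ[ℝ] ℝ) (hp : ∀ u, 0 ≤ b u u)
variable (hinf : Filter.Tendsto (lamb b) Filter.atTop Filter.atTop)
variable (h0 : 0 < lamb b 0) (hs : ∀ u v, b u v = b v u)

include hp hs in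
theorem cs (u v : W) : (b u v) ^ 2 ≤ b u u * b v v := by
  have h := LinearMap.BilinForm.apply_sq_le_of_symm b hp ⟨fun x y => by simp [hs x y]⟩ u v
  exact h

include hp hinf h0 hs in
/-- A finite-dimensional subspace such that on its orthogonal (for both forms) the second form
is small. -/
theorem exists_max {η : ℝ} (hη : 0 < η) :
    ∃ V : Submodule ℝ W, FiniteDimensional ℝ V ∧
      ∀ u : W, (∀ v ∈ V, inner ℝ v u = 0) → (∀ v ∈ V, b v u = 0) → b u u ≤ η * ‖u‖ ^ 2 := by
  classical
  -- bound on the dimension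
  obtain ⟨J, hJ⟩ := (hinf.eventually (eventually_gt_atTop (η⁻¹))).exists
  have hJ' : (lamb b J)⁻¹ < η := by
    rw [inv_lt_comm₀ (lamb_pos b hp hinf h0 J) hη]; exact hJ
  let Pr : ℕ → Prop := fun n => ∃ V : Submodule ℝ W, FiniteDimensional ℝ V ∧ finrank ℝ V = n ∧
    ∀ v ∈ V, η * ‖v‖ ^ 2 ≤ b v v
  have hP0 : Pr 0 := ⟨⊥, inferInstance, finrank_bot ℝ W, by
    intro v hv
    rw [Submodule.mem_bot] at hv
    subst hv; simp⟩
  have hle : ∀ n, Pr n → n ≤ J := by
    rintro n ⟨V, hfd, hn, hV⟩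
    by_contra hlt
    push Not at hlt
    obtain ⟨j, rfl⟩ : ∃ j, n = j + 1 := ⟨n - 1, by omega⟩
    have h1 := le_inv_lamb b hp hinf h0 hn hV
    have h2 : (lamb b j)⁻¹ ≤ (lamb b J)⁻¹ :=
      inv_anti₀ (lamb_pos b hp hinf h0 J) (lamb_mono b hp hinf (by omega))
    linarith
  let N := Nat.findGreatest Pr J
  have hN : Pr N := Nat.findGreatest_spec (Nat.zero_le J) hP0
  have hmax : ∀ n, Pr n → n ≤ N := fun n hn => Nat.le_findGreatest (hle n hn) hn
  obtain ⟨V, hfd, hVN, hV⟩ := hN
  refine ⟨V, hfd, fun u hau hbu => ?_⟩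
  by_contra hcon
  push Not at hcon
  have hu0 : u ≠ 0 := by
    rintro rfl
    simp at hcon
  have hdisj : V ⊓ span ℝ {u} = ⊥ := by
    rw [eq_bot_iff]
    rintro x ⟨hx1, hx2⟩
    obtain ⟨c, rfl⟩ := mem_span_singleton.mp hx2
    have h1 := hau _ hx1
    rw [real_inner_smul_left, real_inner_self_eq_norm_sq] at h1
    have h2 : ‖u‖ ^ 2 ≠ 0 := by positivity
    have h3 : c = 0 := by
      rcases mul_eq_zero.mp h1 with h | h
      · exact h
      · exact absurd h h2
    simp [h3]
  have hrank : finrank ℝ (V ⊔ span ℝ {u} : Submodule ℝ W) = N + 1 := by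
    have h1 := Submodule.finrank_sup_add_finrank_inf_eq V (span ℝ {u})
    rw [hdisj, finrank_bot, finrank_span_singleton hu0, hVN] at h1
    simpa using h1
  have hPr : Pr (N + 1) := by
    refine ⟨V ⊔ span ℝ {u}, inferInstance, hrank, ?_⟩
    intro x hx
    obtain ⟨v, hv, y, hy, rfl⟩ := mem_sup.mp hx
    obtain ⟨c, rfl⟩ := mem_span_singleton.mp hy
    have h1 : ‖v + c • u‖ ^ 2 = ‖v‖ ^ 2 + c ^ 2 * ‖u‖ ^ 2 := by
      rw [norm_add_sq_real, real_inner_smul_right, hau v hv, norm_smul, mul_pow,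
        Real.norm_eq_abs, sq_abs]
      ring
    have h2 : b (v + c • u) (v + c • u) = b v v + c ^ 2 * b u u := by
      have h3 : b u v = 0 := by rw [hs]; exact hbu v hv
      simp only [map_add, map_smul, LinearMap.add_apply, LinearMap.smul_apply, smul_eq_mul,
        hbu v hv, h3]
      ring
    rw [h1, h2]
    nlinarith [hV v hv, sq_nonneg c]
  have := hmax _ hPr
  omega

include hp hinf h0 hs in
theorem cauchy_ultra (U : Ultrafilter ℕ) (u : ℕ → W) (hu : ∀ m, ‖u m‖ ≤ 1) {ε : ℝ}
    (hε : 0 < ε) : ∃ A ∈ U, ∀ p ∈ A, ∀ q ∈ A, b (u p - u q) (u p - u q) ≤ ε := by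
  classical
  obtain ⟨V, hfd, hV⟩ := exists_max b hp hinf h0 hs (η := ε / 36) (by positivity)
  obtain ⟨v⟩ : Nonempty (Basis (Fin (finrank ℝ V)) ℝ V) := ⟨finBasis ℝ V⟩
  set n := finrank ℝ V with hn
  let Φ : W →ₗ[ℝ] (Fin n → ℝ) × (Fin n → ℝ) :=
    { toFun := fun w => (fun i => inner ℝ (v i : W) w, fun i => b (v i) w)
      map_add' := by
        intro x y
        ext i <;> simp [inner_add_right]
      map_smul' := by
        intro c x
        ext i <;> simp [inner_smul_right] }
  have hker : ∀ w, Φ w = 0 → b w w ≤ ε / 36 * ‖w‖ ^ 2 := by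
    intro w hw
    have h1 : ∀ i, inner ℝ (v i : W) w = 0 := fun i => congrFun (congrArg Prod.fst hw) i
    have h2 : ∀ i, b (v i) w = 0 := fun i => congrFun (congrArg Prod.snd hw) i
    refine hV w ?_ ?_
    · intro x hx
      have h3 : x = ∑ i, (v.repr ⟨x, hx⟩ i) • (v i : W) := by
        have := congrArg (fun z : V => (z : W)) (v.sum_repr ⟨x, hx⟩)
        simp only [Submodule.coe_sum, Submodule.coe_smul] at this
        exact this.symm
      rw [h3, sum_inner]
      refine Finset.sum_eq_zero fun i _ => ?_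
      rw [real_inner_smul_left, h1, mul_zero]
    · intro x hx
      have h3 : x = ∑ i, (v.repr ⟨x, hx⟩ i) • (v i : W) := by
        have := congrArg (fun z : V => (z : W)) (v.sum_repr ⟨x, hx⟩)
        simp only [Submodule.coe_sum, Submodule.coe_smul] at this
        exact this.symm
      rw [h3, map_sum, LinearMap.sum_apply]
      refine Finset.sum_eq_zero fun i _ => ?_
      rw [map_smul, LinearMap.smul_apply, h2, smul_zero]
  -- bounded right inverse
  obtain ⟨S, hS⟩ := (Φ.rangeRestrict).exists_rightInverse_of_surjective Φ.range_rangeRestrict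
  have hScont : Continuous S := LinearMap.continuous_of_finiteDimensional S
  obtain ⟨M, hM0, hM⟩ := SemilinearMapClass.bound_of_continuous S hScont
  -- convergence along the ultrafilter
  set β := (lamb b 0)⁻¹ with hβ
  have hβ0 : 0 < β := inv_pos.mpr h0
  obtain ⟨K, hK0, hK⟩ : ∃ K : ℝ, 0 ≤ K ∧ ∀ m, ‖Φ (u m)‖ ≤ K := by
    refine ⟨∑ i, (‖(v i : W)‖ + Real.sqrt (b (v i) (v i) * β)), ?_, ?_⟩
    · exact Finset.sum_nonneg fun i _ => by positivity
    · intro m
      have hterm : ∀ i, ‖(v i : W)‖ + Real.sqrt (b (v i) (v i) * β) ≤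
          ∑ i, (‖(v i : W)‖ + Real.sqrt (b (v i) (v i) * β)) := fun i =>
        Finset.single_le_sum (f := fun i => ‖(v i : W)‖ + Real.sqrt (b (v i) (v i) * β))
          (fun i _ => by positivity) (Finset.mem_univ i)
      have hnn : 0 ≤ ∑ i, (‖(v i : W)‖ + Real.sqrt (b (v i) (v i) * β)) :=
        Finset.sum_nonneg fun i _ => by positivity
      rw [Prod.norm_def, max_le_iff]
      constructor
      · rw [pi_norm_le_iff_of_nonneg hnn]
        intro i
        have h1 : ‖inner ℝ (v i : W) (u m)‖ ≤ ‖(v i : W)‖ * ‖u m‖ := norm_inner_le_norm _ _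
        have h2 : ‖(v i : W)‖ * ‖u m‖ ≤ ‖(v i : W)‖ :=
          mul_le_of_le_one_right (norm_nonneg _) (hu m)
        have h3 := Real.sqrt_nonneg (b (v i) (v i) * β)
        have := hterm i
        change ‖inner ℝ (v i : W) (u m)‖ ≤ _
        linarith
      · rw [pi_norm_le_iff_of_nonneg hnn]
        intro i
        have h1 := cs b hp hs (v i : W) (u m)
        have h2 : b (u m) (u m) ≤ β := by
          have := bound_lamb b hp hinf h0 (u m)
          have h3 : ‖u m‖ ^ 2 ≤ 1 := pow_le_one₀ (norm_nonneg _) (hu m)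
          nlinarith
        have h3 : (b (v i) (u m)) ^ 2 ≤ b (v i) (v i) * β :=
          h1.trans (mul_le_mul_of_nonneg_left h2 (hp _))
        have h4 : |b (v i) (u m)| ≤ Real.sqrt (b (v i) (v i) * β) := Real.abs_le_sqrt h3
        have h5 := norm_nonneg (v i : W)
        have := hterm i
        change ‖b (v i) (u m)‖ ≤ _
        rw [Real.norm_eq_abs]
        linarith
  have hcomp : IsCompact (Metric.closedBall (0 : (Fin n → ℝ) × (Fin n → ℝ)) K) :=
    isCompact_closedBall _ _
  obtain ⟨y, -, hy⟩ := hcomp.ultrafilter_le_nhds (U.map (fun m => Φ (u m))) (by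
    rw [le_principal_iff]
    change _ ∈ U.map _
    rw [Ultrafilter.mem_map]
    refine Filter.univ_mem' fun m => ?_
    simpa using hK m)
  obtain ⟨δ, hδ0, hδ1, hδ2⟩ : ∃ δ : ℝ, 0 < δ ∧ M * δ ≤ 1 ∧ β * (M * δ) ^ 2 ≤ ε / 4 := by
    refine ⟨min 1 (ε / (4 * β)) / M, by positivity, ?_, ?_⟩
    · rw [mul_div_cancel₀ _ hM0.ne']
      exact min_le_left _ _
    · rw [mul_div_cancel₀ _ hM0.ne']
      have h1 : min 1 (ε / (4 * β)) ≤ 1 := min_le_left _ _
      have h2 : min 1 (ε / (4 * β)) ≤ ε / (4 * β) := min_le_right _ _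
      have h3 : 0 < min 1 (ε / (4 * β)) := by positivity
      have h4 : (min 1 (ε / (4 * β))) ^ 2 ≤ ε / (4 * β) := by nlinarith
      calc β * (min 1 (ε / (4 * β))) ^ 2 ≤ β * (ε / (4 * β)) :=
            mul_le_mul_of_nonneg_left h4 hβ0.le
        _ = ε / 4 := by field_simp
  refine ⟨(fun m => Φ (u m)) ⁻¹' Metric.ball y (δ / 2), ?_, ?_⟩
  · have h1 := hy (Metric.ball_mem_nhds y (half_pos hδ0))
    exact h1
  · intro p hpA q hqA
    set d := u p - u q with hd
    have hΦd : ‖Φ d‖ ≤ δ := by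
      have h1 : dist (Φ (u p)) y < δ / 2 := hpA
      have h2 : dist (Φ (u q)) y < δ / 2 := hqA
      have h3 : dist (Φ (u p)) (Φ (u q)) ≤ δ := by
        have := dist_triangle_right (Φ (u p)) (Φ (u q)) y
        linarith
      rw [hd, map_sub, ← dist_eq_norm]
      exact h3
    set c := S (Φ.rangeRestrict d) with hc
    have hcn : ‖c‖ ≤ M * δ := by
      refine (hM _).trans (mul_le_mul_of_nonneg_left ?_ hM0.le)
      exact hΦd
    have hcn2 : ‖c‖ ≤ 1 := hcn.trans hδ1
    have hw : Φ (d - c) = 0 := by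
      have h1 : Φ.rangeRestrict c = Φ.rangeRestrict d := by
        have := LinearMap.congr_fun hS (Φ.rangeRestrict d)
        exact this
      have h2 : Φ c = Φ d := congrArg Subtype.val h1
      rw [map_sub, h2, sub_self]
    have hdn : ‖d‖ ≤ 2 := by
      have := norm_sub_le (u p) (u q)
      have := hu p
      have := hu q
      linarith
    have hwn : ‖d - c‖ ≤ 3 := by
      have := norm_sub_le d c
      linarith
    have h1 : b (d - c) (d - c) ≤ ε / 4 := by
      refine (hker _ hw).trans ?_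
      have h2 : ‖d - c‖ ^ 2 ≤ 9 := by nlinarith [norm_nonneg (d - c)]
      nlinarith
    have h2 : b c c ≤ ε / 4 := by
      refine (bound_lamb b hp hinf h0 c).trans ?_
      refine le_trans ?_ hδ2
      refine mul_le_mul_of_nonneg_left ?_ hβ0.le
      exact pow_le_pow_left₀ (norm_nonneg _) hcn 2
    have h3 := hp (d - c - c)
    have h4 : b d d = 2 * b (d - c) (d - c) + 2 * b c c - b (d - c - c) (d - c - c) := by
      simp only [map_sub, LinearMap.sub_apply]
      ring
    linarith

end Pool.Agent.LQG65
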