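import Mathlib

/-! Definitions: Dirichlet form, min-max eigenvalues of the time-changed Brownian motion, the
Gaussian free field through its Dirichlet pairings and circle averages, the Liouville measure. -/

open MeasureTheory ProbabilityTheory Filter Topology

namespace Pool.Agent.LQG65

open scoped ContDiff in
/-- Smooth real functions on the plane with compact support contained in `D`. -/
def TestFn (D : Set ℂ) : Submodule ℝ (ℂ → ℝ) where
  carrier := {u | ContDiff ℝ ∞ u ∧ HasCompactSupport u ∧ tsupport u ⊆ D}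
  zero_mem' := ⟨contDiff_const, HasCompactSupport.zero, by simp⟩
  add_mem' := by
    rintro u v ⟨hu, hu', hu''⟩ ⟨hv, hv', hv''⟩
    exact ⟨hu.add hv, hu'.add hv', (tsupport_add u v).trans (Set.union_subset hu'' hv'')⟩
  smul_mem' := by
    rintro c u ⟨hu, hu', hu''⟩
    exact ⟨hu.const_smul c, hu'.mono' (Function.support_const_smul_subset c u |>.trans
      subset_closure), (closure_mono (Function.support_const_smul_subset c u)).trans hu''⟩

/-- The Dirichlet integral `∫ ∇u · ∇v`. -/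
noncomputable def dir (u v : ℂ → ℝ) : ℝ :=
  ∫ z, (fderiv ℝ u z 1 * fderiv ℝ v z 1 + fderiv ℝ u z Complex.I * fderiv ℝ v z Complex.I)

/-- The `j`-th (`j = 0, 1, …`) min-max value of the form `½ ∫ |∇u|²` against `∫ u² dμ`:
the `(j+1)`-st eigenvalue of minus the generator of the planar Brownian motion killed on leaving
`D` and time-changed by the additive functional with Revuz measure `μ`. -/
noncomputable def lam (D : Set ℂ) (μ : Measure ℂ) (j : ℕ) : ℝ :=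
  sInf {L : ℝ | ∃ V : Submodule ℝ (TestFn D), Module.finrank ℝ V = j + 1 ∧
    ∀ u ∈ V, (1 / 2) * dir u u ≤ L * ∫ z, (u : ℂ → ℝ) z ^ 2 ∂μ}

/-- Circles whose closed disc lies in `D`: pairs (radius, centre). -/
abbrev Circ (D : Set ℂ) : Type :=
  {p : ℝ × ℂ // 0 < p.1 ∧ Metric.closedBall p.2 p.1 ⊆ D}

variable {Ω : Type*} [MeasurableSpace Ω]

/-- `ξ φ` is the Dirichlet pairing `(h, φ)_∇ = (2π)⁻¹ ∫ ∇h · ∇φ` and `h ε x` the average on the
circle of radius `ε` about `x` of a Gaussian free field on `D` with zero boundary conditions. -/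
structure IsGFF (D : Set ℂ) (P : Measure Ω) (ξ : TestFn D → Ω → ℝ) (h : ℝ → ℂ → Ω → ℝ) :
    Prop where
  meas_xi : ∀ φ, Measurable (ξ φ)
  meas_h : ∀ p : Circ D, Measurable (h p.1.1 p.1.2)
  gauss : IsGaussianProcess (Sum.elim ξ fun p : Circ D => h p.1.1 p.1.2) P
  mean_xi : ∀ φ, ∫ ω, ξ φ ω ∂P = 0
  mean_h : ∀ p : Circ D, ∫ ω, h p.1.1 p.1.2 ω ∂P = 0
  cov_xi : ∀ φ ψ : TestFn D, ∫ ω, ξ φ ω * ξ ψ ω ∂P = (2 * Real.pi)⁻¹ * dir φ ψ
  cov_h : ∀ (p : Circ D) (φ : TestFn D),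
    ∫ ω, h p.1.1 p.1.2 ω * ξ φ ω ∂P = Real.circleAverage (φ : ℂ → ℝ) p.1.2 p.1.1
  closure_h : ∀ (p : Circ D) (δ : ℝ), 0 < δ → ∃ φ : TestFn D,
    ∫ ω, (h p.1.1 p.1.2 ω - ξ φ ω) ^ 2 ∂P < δ
  cont_h : ∀ (ω : Ω) (ε : ℝ), 0 < ε →
    ContinuousOn (fun x => h ε x ω) {x | Metric.closedBall x ε ⊆ D}

/-- `μ` is the Liouville measure with parameter `γ` of the field with circle averages `h`. -/
structure IsLiouville (D : Set ℂ) (P : Measure Ω) (γ : ℝ) (h : ℝ → ℂ → Ω → ℝ)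
    (μ : Ω → Measure ℂ) : Prop where
  finite : ∀ᵐ ω ∂P, μ ω Set.univ < ⊤
  carried : ∀ᵐ ω ∂P, μ ω Dᶜ = 0
  lim : ∃ ε : ℕ → ℝ, (∀ k, 0 < ε k) ∧ Tendsto ε atTop (𝓝 0) ∧ ∀ᵐ ω ∂P,
    ∀ f : ℂ → ℝ, Continuous f → HasCompactSupport f → tsupport f ⊆ D →
      Tendsto (fun k => ∫ x, f x * (ε k ^ (γ ^ 2 / 2) * Real.exp (γ * h (ε k) x ω))) atTop
        (𝓝 (∫ x, f x ∂(μ ω)))

/-- The rescaled gap `(λ_{j+2} - λ_{j+1}) c_γ μ(D)` (with `j = 0, 1, …`). -/
noncomputable def gap (D : Set ℂ) (γ : ℝ) (μ : Measure ℂ) (j : ℕ) : ℝ :=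
  (lam D μ (j + 1) - lam D μ j) * (1 / (Real.pi * (2 - γ ^ 2 / 2))) * (μ D).toReal

end Pool.Agent.LQG65
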