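import Pool.Agent.LQG65.Sep

/-! Supporting lines of the frame functional along a tilt of the measure. -/

open MeasureTheory Filter Topology Module
open scoped ENNReal

namespace Pool.Agent.LQG65

variable {D : Set ℂ}

/-- The test function of an element of the form space. -/
noncomputable def wf (w : FS D) : ℂ → ℝ := ((eqv D).symm w : ℂ → ℝ)

/-- Sum of squares of a frame. -/
noncomputable def sq {n : ℕ} (u : Fin n → FS D) (x : ℂ) : ℝ := ∑ j, (wf (u j) x) ^ 2

theorem sq_nonneg' {n : ℕ} (u : Fin n → FS D) (x : ℂ) : 0 ≤ sq u x :=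
  Finset.sum_nonneg fun _ _ => _root_.sq_nonneg _

theorem sq_continuous {n : ℕ} (u : Fin n → FS D) : Continuous (sq u) :=
  continuous_finsetSum _ fun j _ => (tf_continuous ((eqv D).symm (u j))).pow 2

theorem sq_support {n : ℕ} (u : Fin n → FS D) : ∃ K : Set ℂ, IsCompact K ∧ K ⊆ D ∧
    ∀ x ∉ K, sq u x = 0 := by
  refine ⟨⋃ j, tsupport (wf (u j)), isCompact_iUnion fun j => tf_compact ((eqv D).symm (u j)),
    Set.iUnion_subset fun j => tf_tsupport ((eqv D).symm (u j)), fun x hx => ?_⟩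
  refine Finset.sum_eq_zero fun j _ => ?_
  have h1 : x ∉ tsupport (wf (u j)) := fun h => hx (Set.mem_iUnion.mpr ⟨j, h⟩)
  rw [image_eq_zero_of_notMem_tsupport h1]
  simp

theorem sq_mul {n : ℕ} (u : Fin n → FS D) {g : ℂ → ℝ} (hg : Continuous g) :
    Continuous (fun x => sq u x * g x) ∧ HasCompactSupport (fun x => sq u x * g x) ∧
      tsupport (fun x => sq u x * g x) ⊆ D := by
  obtain ⟨K, hK, hKD, hz⟩ := sq_support u
  have h0 : ∀ x ∉ K, sq u x * g x = 0 := fun x hx => by rw [hz x hx, zero_mul]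
  refine ⟨(sq_continuous u).mul hg, HasCompactSupport.intro hK h0, ?_⟩
  refine (closure_minimal ?_ hK.isClosed).trans hKD
  intro x hx
  by_contra h
  exact hx (h0 x h)

variable (μ : Measure ℂ) [IsFiniteMeasure μ]

/-- Multiplication by a bounded function on `L²(μ)`. -/
noncomputable def mulB (ψ : ℂ → ℝ) (hψ : MemLp ψ ∞ μ) : Lp ℝ 2 μ →L[ℝ] Lp ℝ 2 μ :=
  (ContinuousLinearMap.mul ℝ ℝ).holderL μ ∞ 2 2 (hψ.toLp _)

theorem inner_mulB_J (ψ : ℂ → ℝ) (hψ : MemLp ψ ∞ μ) (w : FS D) :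
    inner ℝ (mulB μ ψ hψ (J D μ w)) (J D μ w) = ∫ x, ψ x * (wf w x) ^ 2 ∂μ := by
  rw [L2.inner_def]
  refine integral_congr_ae ?_
  have h1 := (ContinuousLinearMap.mul ℝ ℝ).coeFn_holder (r := 2) (hψ.toLp _) (J D μ w)
  have h2 := hψ.coeFn_toLp
  have h3 := (tf_memLp μ ((eqv D).symm w)).coeFn_toLp
  filter_upwards [h1, h2, h3] with x hx hx2 hx3
  have h4 : mulB μ ψ hψ (J D μ w) = (ContinuousLinearMap.mul ℝ ℝ).holder 2 (hψ.toLp _) (J D μ w) :=
    rfl
  have h5 : (J D μ w : ℂ → ℝ) x = wf w x := hx3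
  have h6 : ∀ a c : ℝ, inner ℝ a c = a * c := fun a c => by
    simp [mul_comm]
  rw [h4, hx, hx2, h5, h6]
  simp only [ContinuousLinearMap.mul_apply']
  ring

theorem integrable_wf (w : FS D) {g : ℂ → ℝ} (hg : Continuous g) :
    Integrable (fun x => g x * (wf w x) ^ 2) μ := by
  have h1 : Continuous (fun x => g x * (wf w x) ^ 2) :=
    hg.mul ((tf_continuous ((eqv D).symm w)).pow 2)
  refine h1.integrable_of_hasCompactSupport ?_
  refine (tf_compact ((eqv D).symm w)).mono' ?_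
  intro x hx
  refine subset_closure fun h => hx ?_
  have h2 : wf w x = 0 := h
  simp [h2]

/-- The tilted functional. -/
noncomputable def val (γ a : ℝ) (φ : TestFn D) {n : ℕ} (u : Fin n → FS D) (s : ℝ) : ℝ :=
  ∫ x, sq u x * Real.exp (γ * s * (φ : ℂ → ℝ) x) *
    Real.exp (-(γ * a) * (φ : ℂ → ℝ) x) ∂μ

theorem val_eq (γ a : ℝ) (φ : TestFn D) {n : ℕ} (u : Fin n → FS D) (s : ℝ) :
    val μ γ a φ u s = ∑ j, ∫ x, Real.exp (γ * (s - a) * (φ : ℂ → ℝ) x) * (wf (u j) x) ^ 2 ∂μ := by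
  have hc := tf_continuous φ
  rw [← integral_finsetSum]
  · unfold val
    congr 1
    ext x
    rw [← Finset.mul_sum, mul_assoc, ← Real.exp_add]
    have : γ * s * (φ : ℂ → ℝ) x + -(γ * a) * (φ : ℂ → ℝ) x = γ * (s - a) * (φ : ℂ → ℝ) x := by
      ring
    rw [this, mul_comm]
    rfl
  · intro j _
    exact integrable_wf μ (u j) (by fun_prop)

theorem sum_b {n : ℕ} (u : Fin n → FS D) :
    ∑ j, pull (J D μ) (u j) (u j) = ∑ j, ∫ x, (wf (u j) x) ^ 2 ∂μ := by
  refine Finset.sum_congr rfl fun j _ => ?_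
  rw [pull_J]
  rfl

/-- (c) the supporting line of a frame. -/
theorem val_lower (γ a : ℝ) (φ : TestFn D) {n : ℕ} (u : Fin n → FS D) (s : ℝ) :
    ∑ j, pull (J D μ) (u j) (u j) + γ * (s - a) *
      ∑ j, inner ℝ (mulOp μ φ (J D μ (u j))) (J D μ (u j)) ≤ val μ γ a φ u s := by
  have hc := tf_continuous φ
  rw [val_eq, sum_b, Finset.mul_sum, ← Finset.sum_add_distrib]
  refine Finset.sum_le_sum fun j _ => ?_
  rw [inner_mulOp_J]
  have h1 : Integrable (fun x => (wf (u j) x) ^ 2) μ := by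
    have := integrable_wf μ (u j) (g := fun _ => 1) continuous_const
    simpa using this
  have h2 : Integrable (fun x => (φ : ℂ → ℝ) x * (wf (u j) x) ^ 2) μ :=
    integrable_wf μ (u j) hc
  have h3 : Integrable (fun x => Real.exp (γ * (s - a) * (φ : ℂ → ℝ) x) * (wf (u j) x) ^ 2) μ :=
    integrable_wf μ (u j) (by fun_prop)
  have h4 : ∫ x, (wf (u j) x) ^ 2 ∂μ + γ * (s - a) *
      ∫ x, (φ : ℂ → ℝ) x * ((eqv D).symm (u j) : ℂ → ℝ) x ^ 2 ∂μ =
      ∫ x, ((wf (u j) x) ^ 2 + γ * (s - a) * ((φ : ℂ → ℝ) x * (wf (u j) x) ^ 2)) ∂μ := by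
    rw [integral_add h1 (h2.const_mul _), integral_const_mul]
    rfl
  rw [h4]
  refine integral_mono (h1.add (h2.const_mul _)) h3 fun x => ?_
  have h5 := Real.add_one_le_exp (γ * (s - a) * (φ : ℂ → ℝ) x)
  have h6 : 0 ≤ (wf (u j) x) ^ 2 := _root_.sq_nonneg _
  simp only
  nlinarith

/-- (a) the upper bound. -/
theorem val_upper (γ a : ℝ) (φ : TestFn D) {C : ℝ} (hC : ∀ x, |(φ : ℂ → ℝ) x| ≤ C) {n : ℕ}
    (u : Fin n → FS D) (s : ℝ) :
    val μ γ a φ u s ≤ Real.exp (|γ| * |s - a| * C) * ∑ j, pull (J D μ) (u j) (u j) := by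
  have hc := tf_continuous φ
  rw [val_eq, sum_b, Finset.mul_sum]
  refine Finset.sum_le_sum fun j _ => ?_
  have h1 : Integrable (fun x => (wf (u j) x) ^ 2) μ := by
    have := integrable_wf μ (u j) (g := fun _ => 1) continuous_const
    simpa using this
  have h3 : Integrable (fun x => Real.exp (γ * (s - a) * (φ : ℂ → ℝ) x) * (wf (u j) x) ^ 2) μ :=
    integrable_wf μ (u j) (by fun_prop)
  rw [← integral_const_mul]
  refine integral_mono h3 (h1.const_mul _) fun x => ?_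
  simp only
  refine mul_le_mul_of_nonneg_right ?_ (_root_.sq_nonneg _)
  apply Real.exp_le_exp.mpr
  calc γ * (s - a) * (φ : ℂ → ℝ) x ≤ |γ * (s - a) * (φ : ℂ → ℝ) x| := le_abs_self _
    _ = |γ| * |s - a| * |(φ : ℂ → ℝ) x| := by rw [abs_mul, abs_mul]
    _ ≤ |γ| * |s - a| * C := mul_le_mul_of_nonneg_left (hC x) (by positivity)

variable (hinf : Tendsto (lamb (pull (J D μ))) atTop atTop) (h0 : 0 < lamb (pull (J D μ)) 0)

include hinf h0 in
theorem continuous_J : Continuous (J D μ) := by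
  have hp : ∀ u : FS D, 0 ≤ pull (J D μ) u u := fun u => by
    rw [pull_apply, real_inner_self_eq_norm_sq]; positivity
  refine AddMonoidHomClass.continuous_of_bound (J D μ)
    (Real.sqrt (lamb (pull (J D μ)) 0)⁻¹) fun w => ?_
  have h1 := bound_lamb (pull (J D μ)) hp hinf h0 w
  rw [pull_apply, real_inner_self_eq_norm_sq] at h1
  have h2 : 0 ≤ (lamb (pull (J D μ)) 0)⁻¹ := (inv_pos.mpr h0).le
  refine abs_le_of_sq_le_sq' ?_ (by positivity) |>.2
  rw [mul_pow, Real.sq_sqrt h2]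
  exact h1

include hinf h0 in
/-- (b) continuity in the frame. -/
theorem val_continuous (γ a : ℝ) (φ : TestFn D) (n : ℕ) (s : ℝ) :
    Continuous fun u : Fin n → FS D => val μ γ a φ u s := by
  have hJ := continuous_J μ hinf h0
  obtain ⟨C, hC⟩ := (tf_compact φ).exists_bound_of_continuous (tf_continuous φ)
  have hc := tf_continuous φ
  have hψc : Continuous fun x => Real.exp (γ * (s - a) * (φ : ℂ → ℝ) x) := by fun_prop
  have hψ : MemLp (fun x => Real.exp (γ * (s - a) * (φ : ℂ → ℝ) x)) ∞ μ := by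
    refine memLp_top_of_bound hψc.aestronglyMeasurable (Real.exp (|γ * (s - a)| * C))
      (Filter.Eventually.of_forall fun x => ?_)
    rw [Real.norm_eq_abs, abs_of_pos (Real.exp_pos _)]
    apply Real.exp_le_exp.mpr
    calc γ * (s - a) * (φ : ℂ → ℝ) x ≤ |γ * (s - a) * (φ : ℂ → ℝ) x| := le_abs_self _
      _ = |γ * (s - a)| * |(φ : ℂ → ℝ) x| := abs_mul _ _
      _ ≤ |γ * (s - a)| * C := mul_le_mul_of_nonneg_left (hC x) (abs_nonneg _)
  have h1 : (fun u : Fin n → FS D => val μ γ a φ u s) = fun u =>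
      ∑ j, inner ℝ (mulB μ _ hψ (J D μ (u j))) (J D μ (u j)) := by
    ext u
    rw [val_eq]
    refine Finset.sum_congr rfl fun j _ => ?_
    rw [inner_mulB_J]
  rw [h1]
  refine continuous_finsetSum _ fun j _ => ?_
  have h2 : Continuous fun u : Fin n → FS D => J D μ (u j) := hJ.comp (continuous_apply j)
  exact ((mulB μ _ hψ).continuous.comp h2).inner h2

include hinf h0 in
/-- The supporting line with slope `γ q` of the supremum over a dense family of frames. -/
theorem slope_line (γ a : ℝ) (φ : TestFn D) {n : ℕ}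
    (fr : ℕ → {u : Fin n → FS D // Orthonormal ℝ u}) (hfr : DenseRange fr) {q : ℝ}
    (hq : IsSlope (pull (J D μ)) (∑ i : Fin n, (lamb (pull (J D μ)) i)⁻¹) n
      (fun u => inner ℝ (mulOp μ φ (J D μ u)) (J D μ u)) q) (s : ℝ) :
    ∑ i : Fin n, (lamb (pull (J D μ)) i)⁻¹ + γ * q * (s - a) ≤
      ⨆ i, val μ γ a φ (fr i).1 s := by
  have hp : ∀ u : FS D, 0 ≤ pull (J D μ) u u := fun u => by
    rw [pull_apply, real_inner_self_eq_norm_sq]; positivity
  have hs : ∀ u v : FS D, pull (J D μ) u v = pull (J D μ) v u := fun u v => by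
    rw [pull_apply, pull_apply, real_inner_comm]
  set S := ∑ i : Fin n, (lamb (pull (J D μ)) i)⁻¹ with hS
  obtain ⟨C, hC⟩ := (tf_compact φ).exists_bound_of_continuous (tf_continuous φ)
  have hbdd : BddAbove (Set.range fun i => val μ γ a φ (fr i).1 s) := by
    refine ⟨Real.exp (|γ| * |s - a| * C) * S, ?_⟩
    rintro _ ⟨i, rfl⟩
    refine (val_upper μ γ a φ hC (fr i).1 s).trans ?_
    exact mul_le_mul_of_nonneg_left (sum_frame_le _ hp hinf h0 hs (fr i).1 (fr i).2)
      (Real.exp_pos _).le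
  have hcont := val_continuous μ hinf h0 γ a φ n s
  have hall : ∀ u : Fin n → FS D, Orthonormal ℝ u → val μ γ a φ u s ≤
      ⨆ i, val μ γ a φ (fr i).1 s := by
    intro u hu
    refine le_of_forall_pos_le_add fun η hη => ?_
    have hopen : IsOpen {v : {u : Fin n → FS D // Orthonormal ℝ u} |
        val μ γ a φ u s - η < val μ γ a φ v.1 s} :=
      isOpen_lt continuous_const (hcont.comp continuous_subtype_val)
    obtain ⟨i, hi⟩ := hfr.exists_mem_open hopen ⟨⟨u, hu⟩, by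
      change val μ γ a φ u s - η < val μ γ a φ u s
      linarith⟩
    have h1 : val μ γ a φ u s - η < val μ γ a φ (fr i).1 s := hi
    have h2 := le_ciSup hbdd i
    linarith
  refine le_of_forall_pos_le_add fun η hη => ?_
  obtain ⟨u, hu, hu1, hu2⟩ := hq (η / (1 + |γ * (s - a)|)) (by positivity)
  have h1 := hall u hu
  have h2 := val_lower μ γ a φ u s
  set T := ∑ j, inner ℝ (mulOp μ φ (J D μ (u j))) (J D μ (u j)) with hT
  set e := η / (1 + |γ * (s - a)|) with he
  have h3 : γ * (s - a) * q - |γ * (s - a)| * e ≤ γ * (s - a) * T := by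
    have h4 : |γ * (s - a) * (T - q)| ≤ |γ * (s - a)| * e := by
      rw [abs_mul]
      exact mul_le_mul_of_nonneg_left hu2 (abs_nonneg _)
    have h5 := (abs_le.mp h4).1
    nlinarith
  have h6 : e + |γ * (s - a)| * e = η := by
    rw [he]
    have : (1 + |γ * (s - a)|) ≠ 0 := by positivity
    field_simp
  have h7 : γ * q * (s - a) = γ * (s - a) * q := by ring
  linarith

include hinf h0 in
theorem usc_point (γ a : ℝ) (φ : TestFn D) {n : ℕ}
    (fr : ℕ → {u : Fin n → FS D // Orthonormal ℝ u}) {η : ℝ} (hη : 0 < η) :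
    ∃ s : ℚ, |(s : ℝ) - a| < η ∧ ⨆ i, val μ γ a φ (fr i).1 s <
      ∑ i : Fin n, (lamb (pull (J D μ)) i)⁻¹ + η := by
  have hp : ∀ u : FS D, 0 ≤ pull (J D μ) u u := fun u => by
    rw [pull_apply, real_inner_self_eq_norm_sq]; positivity
  have hs : ∀ u v : FS D, pull (J D μ) u v = pull (J D μ) v u := fun u v => by
    rw [pull_apply, pull_apply, real_inner_comm]
  set S := ∑ i : Fin n, (lamb (pull (J D μ)) i)⁻¹ with hS
  obtain ⟨C, hC⟩ := (tf_compact φ).exists_bound_of_continuous (tf_continuous φ)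
  have hle : ∀ s : ℝ, ⨆ i, val μ γ a φ (fr i).1 s ≤ Real.exp (|γ| * |s - a| * C) * S := by
    intro s
    refine ciSup_le fun i => (val_upper μ γ a φ hC (fr i).1 s).trans ?_
    exact mul_le_mul_of_nonneg_left (sum_frame_le _ hp hinf h0 hs (fr i).1 (fr i).2)
      (Real.exp_pos _).le
  have hcont : Continuous fun s : ℝ => Real.exp (|γ| * |s - a| * C) * S := by fun_prop
  have o1 : IsOpen {s : ℝ | |s - a| < η} := isOpen_lt (by fun_prop) continuous_const
  have o2 : IsOpen {s : ℝ | Real.exp (|γ| * |s - a| * C) * S < S + η} :=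
    isOpen_lt hcont continuous_const
  have hopen : IsOpen {s : ℝ | |s - a| < η ∧ Real.exp (|γ| * |s - a| * C) * S < S + η} :=
    o1.inter o2
  obtain ⟨s, hs'⟩ := Rat.denseRange_cast.exists_mem_open hopen ⟨a, by simp [hη]⟩
  exact ⟨s, hs'.1, (hle s).trans_lt hs'.2⟩

end Pool.Agent.LQG65
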