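import Pool.Agent.LQG65.Circle

/-! The free field splits off its component along a test function independently. -/

open MeasureTheory ProbabilityTheory Filter Topology Metric

namespace Pool.Agent.LQG65

variable {D : Set ℂ} {Ω : Type*}

/-- The circle averages after removal of the component along `φ`. -/
noncomputable def res (ξ : TestFn D → Ω → ℝ) (h : ℝ → ℂ → Ω → ℝ) (φ : TestFn D)
    (p : Circ D) (ω : Ω) : ℝ :=
  h p.1.1 p.1.2 ω - ξ φ ω / ((2 * Real.pi)⁻¹ * dir φ φ) *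
    Real.circleAverage (φ : ℂ → ℝ) p.1.2 p.1.1

variable [MeasurableSpace Ω] {P : Measure Ω} [IsProbabilityMeasure P] {ξ : TestFn D → Ω → ℝ} {h : ℝ → ℂ → Ω → ℝ}

omit [IsProbabilityMeasure P] in
theorem gaussian_pair (hG : IsGFF D P ξ h) (φ : TestFn D) :
    IsGaussianProcess (Sum.elim (fun _ : Unit => ξ φ) (res ξ h φ)) P := by
  classical
  refine hG.gauss.of_isGaussianProcess fun s => ?_
  rcases s with _ | p
  · refine ⟨{Sum.inl φ}, ContinuousLinearMap.proj ⟨Sum.inl φ, by simp⟩, fun ω => ?_⟩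
    simp
  · refine ⟨{Sum.inl φ, Sum.inr p}, ContinuousLinearMap.proj ⟨Sum.inr p, by simp⟩ -
      (Real.circleAverage (φ : ℂ → ℝ) p.1.2 p.1.1 / ((2 * Real.pi)⁻¹ * dir φ φ)) •
        ContinuousLinearMap.proj ⟨Sum.inl φ, by simp⟩, fun ω => ?_⟩
    simp only [Sum.elim_inr, res, sub_apply, smul_apply,
      ContinuousLinearMap.proj_apply, Finset.restrict, Sum.elim_inl, smul_eq_mul]
    ring

omit [IsProbabilityMeasure P] in
theorem memLp_xi (hG : IsGFF D P ξ h) (φ : TestFn D) : MemLp (ξ φ) 2 P :=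
  (hG.gauss.hasGaussianLaw_eval (Sum.inl φ)).memLp_two

omit [IsProbabilityMeasure P] in
theorem memLp_h (hG : IsGFF D P ξ h) (p : Circ D) : MemLp (h p.1.1 p.1.2) 2 P :=
  (hG.gauss.hasGaussianLaw_eval (Sum.inr p)).memLp_two

omit [IsProbabilityMeasure P] in
theorem measurable_res (hG : IsGFF D P ξ h) (φ : TestFn D) (p : Circ D) :
    Measurable (res ξ h φ p) := by
  unfold res
  exact (hG.meas_h p).sub (((hG.meas_xi φ).div_const _).mul_const _)

theorem indep_res (hG : IsGFF D P ξ h) (φ : TestFn D) (hv : 0 < (2 * Real.pi)⁻¹ * dir φ φ) :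
    IndepFun (fun ω (_ : Unit) => ξ φ ω) (fun ω (p : Circ D) => res ξ h φ p ω) P := by
  refine (gaussian_pair hG φ).indepFun_of_covariance_eq_zero
    (fun _ => (hG.meas_xi φ).aemeasurable)
    (fun p => (measurable_res hG φ p).aemeasurable) fun _ p => ?_
  have h1 := memLp_xi hG φ
  have h2 := memLp_h hG p
  have h3 : MemLp (res ξ h φ p) 2 P := ((gaussian_pair hG φ).hasGaussianLaw_eval (Sum.inr p)).memLp_two
  rw [covariance_eq_sub h1 h3]
  have h4 : ∫ ω, ξ φ ω ∂P = 0 := hG.mean_xi φ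
  rw [h4, zero_mul, sub_zero]
  set v := (2 * Real.pi)⁻¹ * dir φ φ with hvdef
  set c := Real.circleAverage (φ : ℂ → ℝ) p.1.2 p.1.1 with hc
  have h5 : (ξ φ * res ξ h φ p) = fun ω => h p.1.1 p.1.2 ω * ξ φ ω - (c / v) * (ξ φ ω * ξ φ ω) := by
    ext ω
    simp only [Pi.mul_apply, res]
    ring
  have h6 : Integrable (fun ω => h p.1.1 p.1.2 ω * ξ φ ω) P := h2.integrable_mul h1
  have h7 : Integrable (fun ω => ξ φ ω * ξ φ ω) P := h1.integrable_mul h1
  rw [h5, integral_sub h6 (h7.const_mul _), integral_const_mul, hG.cov_h, hG.cov_xi]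
  rw [← hvdef, ← hc]
  field_simp
  ring

theorem noatom (hG : IsGFF D P ξ h) (φ : TestFn D) (hv : 0 < (2 * Real.pi)⁻¹ * dir φ φ) (t : ℝ) :
    P.map (fun ω => ξ φ ω / ((2 * Real.pi)⁻¹ * dir φ φ)) {t} = 0 := by
  have hlaw := (hG.gauss.hasGaussianLaw_eval (Sum.inl φ)).map_eq_gaussianReal
  have hlaw' : P.map (ξ φ) = gaussianReal (∫ ω, ξ φ ω ∂P) (Var[ξ φ; P]).toNNReal := hlaw
  set v := (2 * Real.pi)⁻¹ * dir φ φ with hvdef
  have hvar : Var[ξ φ; P] = v := by
    rw [variance_eq_sub (memLp_xi hG φ)]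
    have h1 : ∫ ω, ξ φ ω ∂P = 0 := hG.mean_xi φ
    have h2 : ∫ ω, (ξ φ ^ 2) ω ∂P = v := by
      rw [hvdef, ← hG.cov_xi]
      congr 1
      ext ω
      simp [sq]
    rw [h1, h2]
    simp
  rw [hvar] at hlaw'
  have hne : v.toNNReal ≠ 0 := by
    simpa using hv
  have hna := nullSingletonClass_gaussianReal (μ := ∫ ω, ξ φ ω ∂P) hne
  rw [Measure.map_apply ((hG.meas_xi φ).div_const v) (measurableSet_singleton t)]
  have h3 : (fun ω => ξ φ ω / v) ⁻¹' {t} = (ξ φ) ⁻¹' {t * v} := by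
    ext ω
    simp only [Set.mem_preimage, Set.mem_singleton_iff]
    exact div_eq_iff hv.ne'
  rw [h3, ← Measure.map_apply (hG.meas_xi φ) (measurableSet_singleton _), hlaw']
  exact measure_singleton _

end Pool.Agent.LQG65
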