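import Pool.Agent.LQG65.Field

/-! The tilted Liouville integrals as limits of quantities measurable with respect to the
independent part of the field. -/

open MeasureTheory ProbabilityTheory Filter Topology Metric

namespace Pool.Agent.LQG65

variable {D : Set ℂ} {Ω : Type*}

/-- The regularised integral without the component of the field along `φ`. -/
noncomputable def Mk (γ : ℝ) (ξ : TestFn D → Ω → ℝ) (h : ℝ → ℂ → Ω → ℝ) (φ : TestFn D) (r : ℝ)
    (f : ℂ → ℝ) (ω : Ω) : ℝ :=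
  ∫ x, f x * (r ^ (γ ^ 2 / 2) * Real.exp (γ * (h r x ω -
    ξ φ ω / ((2 * Real.pi)⁻¹ * dir φ φ) * Real.circleAverage (φ : ℂ → ℝ) x r)))

variable [MeasurableSpace Ω] {P : Measure Ω} {ξ : TestFn D → Ω → ℝ} {h : ℝ → ℂ → Ω → ℝ}

theorem measurable_Mk (hD : IsOpen D) (hG : IsGFF D P ξ h) (γ : ℝ) (φ : TestFn D) {f : ℂ → ℝ}
    (hf : Continuous f) (hfc : HasCompactSupport f) (hfD : tsupport f ⊆ D) :
    ∃ r₀ > 0, ∀ r, 0 < r → r < r₀ →
      Measurable[MeasurableSpace.comap (fun ω (p : Circ D) => res ξ h φ p ω) inferInstance]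
        (Mk γ ξ h φ r f) := by
  obtain ⟨r₀, hr₀, hroom⟩ := exists_room hD hfc hfD
  refine ⟨r₀, hr₀, fun r hr hr' => ?_⟩
  obtain ⟨N, hN, hfN, hND⟩ := hroom r hr'
  have hcont := fun ω => hG.cont_h ω r hr
  let m : MeasurableSpace Ω :=
    MeasurableSpace.comap (fun ω (p : Circ D) => res ξ h φ p ω) inferInstance
  have hcm : ∀ p : Circ D, @Measurable Ω ℝ m _ (res ξ h φ p) := by
    intro p s hs
    exact ⟨(fun F : Circ D → ℝ => F p) ⁻¹' s, measurable_pi_apply p hs, rfl⟩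
  refine @measurable_integral_of_continuous Ω m (fun x ω => f x * (r ^ (γ ^ 2 / 2) *
    Real.exp (γ * (h r x ω - ξ φ ω / ((2 * Real.pi)⁻¹ * dir φ φ) *
      Real.circleAverage (φ : ℂ → ℝ) x r)))) (fun ω => ?_) (fun x => ?_)
  · refine continuous_mul_of hf hN hfN ?_
    have h1 : ContinuousOn (fun x => h r x ω) N := (hcont ω).mono fun x hx => hND x hx
    have h2 : Continuous fun x => Real.circleAverage (φ : ℂ → ℝ) x r := continuous_circleAverage φ r
    refine ContinuousOn.mul continuousOn_const (Real.continuous_exp.comp_continuousOn ?_)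
    exact ContinuousOn.mul continuousOn_const (h1.sub (continuousOn_const.mul h2.continuousOn))
  · by_cases hx : x ∈ tsupport f
    · have h1 := hcm ⟨(r, x), hr, hND x (hfN hx)⟩
      have h2 : @Measurable Ω ℝ m _ (fun ω => f x * (r ^ (γ ^ 2 / 2) *
          Real.exp (γ * res ξ h φ ⟨(r, x), hr, hND x (hfN hx)⟩ ω))) :=
        ((Real.measurable_exp.comp (h1.const_mul γ)).const_mul _).const_mul _
      exact h2
    · have h1 : f x = 0 := image_eq_zero_of_notMem_tsupport hx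
      simp only [h1, zero_mul]
      exact measurable_const

theorem exp_close {φ : ℂ → ℝ} {C : ℝ} (hC : ∀ x, |φ x| ≤ C) (b : ℝ) {δ : ℝ} (hδ : 0 < δ) :
    ∃ δ' > 0, ∀ x t, |t - φ x| ≤ δ' → |Real.exp (b * t) - Real.exp (b * φ x)| ≤ δ := by
  set K := Real.exp (|b| * C) with hK
  have hK0 : 0 < K := Real.exp_pos _
  refine ⟨min (1 / (|b| + 1)) (δ / (2 * K * (|b| + 1))), by positivity, fun x t ht => ?_⟩
  have hb : 0 < |b| + 1 := by positivity
  have ht1 : |t - φ x| ≤ 1 / (|b| + 1) := ht.trans (min_le_left _ _)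
  have ht2 : |t - φ x| ≤ δ / (2 * K * (|b| + 1)) := ht.trans (min_le_right _ _)
  have h1 : |b * (t - φ x)| ≤ 1 := by
    rw [abs_mul]
    calc |b| * |t - φ x| ≤ (|b| + 1) * (1 / (|b| + 1)) :=
          mul_le_mul (by linarith) ht1 (abs_nonneg _) hb.le
      _ = 1 := by field_simp
  have h2 : Real.exp (b * t) - Real.exp (b * φ x) =
      Real.exp (b * φ x) * (Real.exp (b * (t - φ x)) - 1) := by
    rw [mul_sub, ← Real.exp_add]
    ring_nf
  have h3 : Real.exp (b * φ x) ≤ K := by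
    rw [hK]
    apply Real.exp_le_exp.mpr
    calc b * φ x ≤ |b * φ x| := le_abs_self _
      _ = |b| * |φ x| := abs_mul _ _
      _ ≤ |b| * C := mul_le_mul_of_nonneg_left (hC x) (abs_nonneg _)
  rw [h2, abs_mul, abs_of_pos (Real.exp_pos _)]
  calc Real.exp (b * φ x) * |Real.exp (b * (t - φ x)) - 1|
      ≤ K * (2 * |b * (t - φ x)|) :=
        mul_le_mul h3 (Real.abs_exp_sub_one_le h1) (abs_nonneg _) hK0.le
    _ = 2 * K * |b| * |t - φ x| := by rw [abs_mul]; ring
    _ ≤ 2 * K * (|b| + 1) * (δ / (2 * K * (|b| + 1))) := by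
        refine mul_le_mul ?_ ht2 (abs_nonneg _) (by positivity)
        exact mul_le_mul_of_nonneg_left (by linarith) (by positivity)
    _ = δ := by field_simp

theorem tendsto_Mk (hD : IsOpen D) (hG : IsGFF D P ξ h) (γ : ℝ) (φ : TestFn D) (ω : Ω)
    (ε : ℕ → ℝ) (hε : ∀ k, 0 < ε k) (hε0 : Tendsto ε atTop (𝓝 0)) (μ : Measure ℂ)
    (hlim : ∀ f : ℂ → ℝ, Continuous f → HasCompactSupport f → tsupport f ⊆ D →
      Tendsto (fun k => ∫ x, f x * (ε k ^ (γ ^ 2 / 2) * Real.exp (γ * h (ε k) x ω))) atTop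
        (𝓝 (∫ x, f x ∂μ)))
    {f : ℂ → ℝ} (hf : Continuous f) (hfc : HasCompactSupport f) (hfD : tsupport f ⊆ D) :
    Tendsto (fun k => Mk γ ξ h φ (ε k) f ω) atTop
      (𝓝 (∫ x, f x * Real.exp (-(γ * (ξ φ ω / ((2 * Real.pi)⁻¹ * dir φ φ))) *
        (φ : ℂ → ℝ) x) ∂μ)) := by
  set a := ξ φ ω / ((2 * Real.pi)⁻¹ * dir φ φ) with ha
  obtain ⟨C, hC⟩ := (tf_compact φ).exists_bound_of_continuous (tf_continuous φ)
  have hC' : ∀ x, |(φ : ℂ → ℝ) x| ≤ C := hC
  -- the main term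
  have hsub1 : tsupport (fun x => f x * Real.exp (-(γ * a) * (φ : ℂ → ℝ) x)) ⊆ tsupport f :=
    closure_mono (Function.support_mul_subset_left _ _)
  have hf1 : Continuous fun x => f x * Real.exp (-(γ * a) * (φ : ℂ → ℝ) x) := by
    have := tf_continuous φ
    fun_prop
  have hlim1 := hlim _ hf1 (hfc.mul_right) (hsub1.trans hfD)
  -- the absolute value
  have habs : tsupport (fun x => |f x|) ⊆ tsupport f :=
    closure_mono (by intro x hx; simpa using hx)
  have hlim2 := hlim (fun x => |f x|) hf.abs (hfc.norm) (habs.trans hfD)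
  set A := ∫ x, |f x| ∂μ with hA
  -- difference tends to zero
  have hdiff : Tendsto (fun k => Mk γ ξ h φ (ε k) f ω - ∫ x, (f x *
      Real.exp (-(γ * a) * (φ : ℂ → ℝ) x)) * (ε k ^ (γ ^ 2 / 2) * Real.exp (γ * h (ε k) x ω)))
      atTop (𝓝 0) := by
    rw [Metric.tendsto_atTop']
    intro δ hδ
    have hA0 : 0 ≤ A := integral_nonneg fun x => abs_nonneg _
    obtain ⟨δ', hδ', hexp⟩ := exp_close hC' (-(γ * a)) (δ := δ / (2 * (A + 1))) (by positivity)
    obtain ⟨r₁, hr₁, hca⟩ := circleAverage_close φ hδ'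
    obtain ⟨r₀, hr₀, hroom⟩ := exists_room hD hfc hfD
    have hev1 : ∀ᶠ k in atTop, ε k < min r₀ r₁ :=
      hε0.eventually (gt_mem_nhds (by positivity))
    have hev2 : ∀ᶠ k in atTop, ∫ x, |f x| * (ε k ^ (γ ^ 2 / 2) * Real.exp (γ * h (ε k) x ω)) <
        A + 1 := hlim2.eventually (gt_mem_nhds (by linarith))
    obtain ⟨K, hK⟩ := (hev1.and hev2).exists_forall_of_atTop
    refine ⟨K, fun k hk => ?_⟩
    obtain ⟨hk1, hk2⟩ := hK k hk.le
    obtain ⟨N, hN, hfN, hND⟩ := hroom (ε k) (hk1.trans_le (min_le_left _ _))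
    have hhc : ContinuousOn (fun x => h (ε k) x ω) N :=
      (hG.cont_h ω (ε k) (hε k)).mono fun x hx => hND x hx
    have hcac : Continuous fun x => Real.circleAverage (φ : ℂ → ℝ) x (ε k) :=
      continuous_circleAverage φ (ε k)
    have hφc := tf_continuous φ
    -- integrability
    have hgen : ∀ (F : ℂ → ℝ) (G : ℂ → ℝ), Continuous F → HasCompactSupport F → tsupport F ⊆ N →
        ContinuousOn G N → Integrable (fun x => F x * G x) := by
      intro F G hF hFc hFN hG'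
      exact (continuous_mul_of hF hN hFN hG').integrable_of_hasCompactSupport hFc.mul_right
    have hwc : ContinuousOn (fun x => ε k ^ (γ ^ 2 / 2) * Real.exp (γ * h (ε k) x ω)) N :=
      continuousOn_const.mul (Real.continuous_exp.comp_continuousOn (continuousOn_const.mul hhc))
    have i1 : Integrable (fun x => f x * (ε k ^ (γ ^ 2 / 2) * Real.exp (γ * (h (ε k) x ω -
        a * Real.circleAverage (φ : ℂ → ℝ) x (ε k))))) := by
      refine hgen f _ hf hfc hfN ?_
      refine continuousOn_const.mul (Real.continuous_exp.comp_continuousOn ?_)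
      exact continuousOn_const.mul (hhc.sub (continuousOn_const.mul hcac.continuousOn))
    have i2 : Integrable (fun x => (f x * Real.exp (-(γ * a) * (φ : ℂ → ℝ) x)) *
        (ε k ^ (γ ^ 2 / 2) * Real.exp (γ * h (ε k) x ω))) :=
      hgen _ _ hf1 hfc.mul_right (hsub1.trans hfN) hwc
    have i3 : Integrable (fun x => |f x| * (ε k ^ (γ ^ 2 / 2) * Real.exp (γ * h (ε k) x ω))) :=
      hgen _ _ hf.abs hfc.norm (habs.trans hfN) hwc
    have hM : Mk γ ξ h φ (ε k) f ω = ∫ x, f x * (ε k ^ (γ ^ 2 / 2) * Real.exp (γ * (h (ε k) x ω -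
        a * Real.circleAverage (φ : ℂ → ℝ) x (ε k)))) := rfl
    rw [Real.dist_eq, sub_zero, hM, ← integral_sub i1 i2]
    have hb : ∀ x, ‖f x * (ε k ^ (γ ^ 2 / 2) * Real.exp (γ * (h (ε k) x ω -
        a * Real.circleAverage (φ : ℂ → ℝ) x (ε k)))) - (f x * Real.exp (-(γ * a) *
        (φ : ℂ → ℝ) x)) * (ε k ^ (γ ^ 2 / 2) * Real.exp (γ * h (ε k) x ω))‖ ≤
        δ / (2 * (A + 1)) * (|f x| * (ε k ^ (γ ^ 2 / 2) * Real.exp (γ * h (ε k) x ω))) := by
      intro x
      have e1 : Real.exp (γ * (h (ε k) x ω - a * Real.circleAverage (φ : ℂ → ℝ) x (ε k))) =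
          Real.exp (-(γ * a) * Real.circleAverage (φ : ℂ → ℝ) x (ε k)) *
            Real.exp (γ * h (ε k) x ω) := by
        rw [← Real.exp_add]; ring_nf
      have e2 : f x * (ε k ^ (γ ^ 2 / 2) * Real.exp (γ * (h (ε k) x ω -
        a * Real.circleAverage (φ : ℂ → ℝ) x (ε k)))) - (f x * Real.exp (-(γ * a) *
        (φ : ℂ → ℝ) x)) * (ε k ^ (γ ^ 2 / 2) * Real.exp (γ * h (ε k) x ω)) =
          (Real.exp (-(γ * a) * Real.circleAverage (φ : ℂ → ℝ) x (ε k)) -
            Real.exp (-(γ * a) * (φ : ℂ → ℝ) x)) *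
          (f x * (ε k ^ (γ ^ 2 / 2) * Real.exp (γ * h (ε k) x ω))) := by
        rw [e1]; ring
      rw [e2, Real.norm_eq_abs, abs_mul, abs_mul (f x)]
      have hw : 0 ≤ ε k ^ (γ ^ 2 / 2) * Real.exp (γ * h (ε k) x ω) :=
        mul_nonneg (Real.rpow_nonneg (hε k).le _) (Real.exp_pos _).le
      rw [abs_of_nonneg hw]
      refine mul_le_mul_of_nonneg_right ?_ (mul_nonneg (abs_nonneg _) hw)
      exact hexp x _ (hca (ε k) (hε k) (hk1.trans_le (min_le_right _ _)) x)
    have hfin := norm_integral_le_of_norm_le (i3.const_mul (δ / (2 * (A + 1))))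
      (Filter.Eventually.of_forall hb)
    rw [integral_const_mul, Real.norm_eq_abs] at hfin
    refine lt_of_le_of_lt hfin ?_
    calc δ / (2 * (A + 1)) * ∫ x, |f x| * (ε k ^ (γ ^ 2 / 2) * Real.exp (γ * h (ε k) x ω))
        ≤ δ / (2 * (A + 1)) * (A + 1) := mul_le_mul_of_nonneg_left hk2.le (by positivity)
      _ = δ / 2 := by field_simp
      _ < δ := half_lt_self hδ
  have := hdiff.add hlim1
  simpa using this

end Pool.Agent.LQG65
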