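import Mathlib

/-! A random function, observed at an independent point with atomless law, has almost surely at
most one supporting slope there. -/

open MeasureTheory ProbabilityTheory Filter Topology

namespace Pool.Agent.LQG65

/-- The set of pairs (path, point) with a strict kink at the point. -/
def kink (c δ : ℚ) : Set ((ℚ → ℝ) × ℝ) :=
  {p | ∀ s : ℚ, (⨅ s' : ℚ, (p.1 s' - c * s')) + δ * |(s : ℝ) - p.2| ≤ p.1 s - c * s}

theorem measurableSet_kink (c δ : ℚ) : MeasurableSet (kink c δ) := by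
  have h1 : kink c δ = ⋂ s : ℚ, {p : (ℚ → ℝ) × ℝ |
      (⨅ s' : ℚ, (p.1 s' - c * s')) + δ * |(s : ℝ) - p.2| ≤ p.1 s - c * s} := by
    ext p; simp [kink]
  rw [h1]
  refine MeasurableSet.iInter fun s => measurableSet_le ?_ ?_
  · refine Measurable.add ?_ ?_
    · refine Measurable.iInf fun s' => ?_
      fun_prop
    · refine Measurable.const_mul ?_ _
      exact (continuous_abs.measurable).comp (measurable_snd.const_sub _)
  · fun_prop

theorem kink_section (c δ : ℚ) (hδ : 0 < δ) (r : ℚ → ℝ) :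
    (Prod.mk r ⁻¹' kink c δ).Subsingleton := by
  intro t₁ h₁ t₂ h₂
  by_contra hne
  set I := ⨅ s' : ℚ, (r s' - c * s') with hI
  have hδ' : (0 : ℝ) < δ := by exact_mod_cast hδ
  have hpos : 0 < |t₁ - t₂| := abs_pos.mpr (sub_ne_zero.mpr hne)
  have h3 : ∀ s : ℚ, I + δ * (|t₁ - t₂| / 2) ≤ r s - c * s := by
    intro s
    have a1 : I + δ * |(s : ℝ) - t₁| ≤ r s - c * s := h₁ s
    have a2 : I + δ * |(s : ℝ) - t₂| ≤ r s - c * s := h₂ s
    have a3 : |t₁ - t₂| ≤ |(s : ℝ) - t₁| + |(s : ℝ) - t₂| := by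
      have := abs_sub_le t₁ (s : ℝ) t₂
      rw [abs_sub_comm t₁ (s : ℝ)] at this
      exact this
    have a4 : |t₁ - t₂| / 2 ≤ max |(s : ℝ) - t₁| |(s : ℝ) - t₂| := by
      have := le_max_left |(s : ℝ) - t₁| |(s : ℝ) - t₂|
      have := le_max_right |(s : ℝ) - t₁| |(s : ℝ) - t₂|
      linarith
    rcases le_total |(s : ℝ) - t₁| |(s : ℝ) - t₂| with h | h
    · rw [max_eq_right h] at a4
      nlinarith
    · rw [max_eq_left h] at a4
      nlinarith
  have h4 : I + δ * (|t₁ - t₂| / 2) ≤ I := le_ciInf h3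
  nlinarith

theorem mem_kink {r : ℚ → ℝ} {t c₀ q₁ q₂ : ℝ} {c δ : ℚ} (hδ : 0 < δ) (hc1 : q₁ + δ ≤ c)
    (hc2 : (c : ℝ) + δ ≤ q₂)
    (h1 : ∀ s : ℚ, c₀ + q₁ * (s - t) ≤ r s) (h2 : ∀ s : ℚ, c₀ + q₂ * (s - t) ≤ r s)
    (h3 : ∀ ε > 0, ∃ s : ℚ, |(s : ℝ) - t| < ε ∧ r s < c₀ + ε) : (r, t) ∈ kink c δ := by
  have hδ' : (0 : ℝ) < δ := by exact_mod_cast hδ
  have key : ∀ s : ℚ, c₀ - c * t + δ * |(s : ℝ) - t| ≤ r s - c * s := by
    intro s
    rcases le_total (s : ℝ) t with h | h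
    · rw [abs_of_nonpos (by linarith)]
      have := h1 s
      nlinarith
    · rw [abs_of_nonneg (by linarith)]
      have := h2 s
      nlinarith
  have hbdd : BddBelow (Set.range fun s : ℚ => r s - c * s) := by
    refine ⟨c₀ - c * t, ?_⟩
    rintro _ ⟨s, rfl⟩
    have h4 := key s
    have h5 : 0 ≤ δ * |(s : ℝ) - t| := by positivity
    change c₀ - c * t ≤ r s - c * s
    linarith
  have hI : (⨅ s' : ℚ, (r s' - c * s')) ≤ c₀ - c * t := by
    refine le_of_forall_pos_le_add fun ε hε => ?_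
    obtain ⟨s, hs1, hs2⟩ := h3 (ε / (1 + |(c : ℝ)|)) (by positivity)
    refine (ciInf_le hbdd s).trans ?_
    have a1 : -(c * (s - t)) ≤ |(c : ℝ)| * (ε / (1 + |(c : ℝ)|)) := by
      calc -((c : ℝ) * (s - t)) ≤ |(c : ℝ) * (s - t)| := neg_le_abs _
        _ = |(c : ℝ)| * |(s : ℝ) - t| := abs_mul _ _
        _ ≤ _ := mul_le_mul_of_nonneg_left hs1.le (abs_nonneg _)
    have a2 : ε / (1 + |(c : ℝ)|) + |(c : ℝ)| * (ε / (1 + |(c : ℝ)|)) = ε := by
      have : (1 + |(c : ℝ)|) ≠ 0 := by positivity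
      field_simp
    linarith
  intro s
  have h4 := key s
  change (⨅ s' : ℚ, (r s' - c * s')) + δ * |(s : ℝ) - t| ≤ r s - c * s
  linarith

/-- Almost surely there is at most one supporting slope at the random point. -/
theorem ae_unique_slope {Ω : Type*} [MeasurableSpace Ω] (P : Measure Ω) [IsProbabilityMeasure P]
    (R : Ω → ℚ → ℝ) (ξ : Ω → ℝ) (hR : Measurable R) (hξ : Measurable ξ)
    (hind : IndepFun R ξ P) (hat : ∀ t, P.map ξ {t} = 0) :
    ∀ᵐ ω ∂P, ¬ ∃ c₀ q₁ q₂ : ℝ, q₁ < q₂ ∧ (∀ s : ℚ, c₀ + q₁ * (s - ξ ω) ≤ R ω s) ∧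
      (∀ s : ℚ, c₀ + q₂ * (s - ξ ω) ≤ R ω s) ∧
      (∀ ε > 0, ∃ s : ℚ, |(s : ℝ) - ξ ω| < ε ∧ R ω s < c₀ + ε) := by
  have hmap : P.map (fun ω => (R ω, ξ ω)) = (P.map R).prod (P.map ξ) :=
    (indepFun_iff_map_prod_eq_prod_map_map hR.aemeasurable hξ.aemeasurable).mp hind
  have hnull : ∀ c δ : ℚ, 0 < δ → ∀ᵐ ω ∂P, (R ω, ξ ω) ∉ kink c δ := by
    intro c δ hδ
    have : IsProbabilityMeasure (P.map R) := Measure.isProbabilityMeasure_map hR.aemeasurable
    have : IsProbabilityMeasure (P.map ξ) := Measure.isProbabilityMeasure_map hξ.aemeasurable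
    have h1 : ((P.map R).prod (P.map ξ)) (kink c δ) = 0 := by
      rw [Measure.measure_prod_null (measurableSet_kink c δ)]
      refine Filter.Eventually.of_forall fun r => ?_
      change (P.map ξ) (Prod.mk r ⁻¹' kink c δ) = 0
      rcases (kink_section c δ hδ r).eq_empty_or_singleton with h | ⟨t, h⟩
      · rw [h]; simp
      · rw [h]; exact hat t
    rw [← hmap, Measure.map_apply (hR.prodMk hξ) (measurableSet_kink c δ)] at h1
    rw [ae_iff]
    simp only [not_not]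
    exact h1
  have hall : ∀ᵐ ω ∂P, ∀ c δ : ℚ, 0 < δ → (R ω, ξ ω) ∉ kink c δ := by
    rw [ae_all_iff]; intro c
    rw [ae_all_iff]; intro δ
    rcases le_or_gt δ 0 with h | h
    · exact Filter.Eventually.of_forall fun ω h' => absurd h' (not_lt.mpr h)
    · filter_upwards [hnull c δ h] with ω hω _ using hω
  filter_upwards [hall] with ω hω
  rintro ⟨c₀, q₁, q₂, hq, h1, h2, h3⟩
  obtain ⟨c, hc1, hc2⟩ := exists_rat_btwn hq
  obtain ⟨δ, hδ0, hδ1⟩ := exists_rat_btwn (show (0 : ℝ) < min (c - q₁) (q₂ - c) by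
    rw [lt_min_iff]; constructor <;> linarith)
  rw [lt_min_iff] at hδ1
  have hδ0' : 0 < δ := by exact_mod_cast hδ0
  exact hω c δ hδ0' (mem_kink hδ0' (by linarith) (by linarith) h1 h2 h3)

end Pool.Agent.LQG65
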