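import Pool.Agent.LQG65.Det
import Pool.Agent.LQG65.Limit
import Pool.Agent.LQG65.Unique

/-! Almost sure simplicity of the spectrum. -/

open MeasureTheory ProbabilityTheory Filter Topology Module
open scoped ENNReal

namespace Pool.Agent.LQG65

variable {D : Set ℂ} {Ω : Type*} [MeasurableSpace Ω] {P : Measure Ω} [IsProbabilityMeasure P]
  {ξ : TestFn D → Ω → ℝ} {h : ℝ → ℂ → Ω → ℝ}

theorem no_two_slopes (hD : IsOpen D) (hG : IsGFF D P ξ h) {γ : ℝ} (hγ : 0 < γ)
    {μ : Ω → Measure ℂ} (hμ : IsLiouville D P γ h μ) (φ : TestFn D)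
    (hv : 0 < (2 * Real.pi)⁻¹ * dir φ φ) (n : ℕ) :
    ∀ᵐ ω ∂P, ∀ (_ : IsFiniteMeasure (μ ω)),
      Tendsto (lamb (pull (J D (μ ω)))) atTop atTop → 0 < lamb (pull (J D (μ ω))) 0 →
      ¬ ∃ q₁ q₂ : ℝ, q₁ < q₂ ∧
        IsSlope (pull (J D (μ ω))) (∑ i : Fin n, (lamb (pull (J D (μ ω))) i)⁻¹) n
          (fun u => inner ℝ (mulOp (μ ω) φ (J D (μ ω) u)) (J D (μ ω) u)) q₁ ∧
        IsSlope (pull (J D (μ ω))) (∑ i : Fin n, (lamb (pull (J D (μ ω))) i)⁻¹) n
          (fun u => inner ℝ (mulOp (μ ω) φ (J D (μ ω) u)) (J D (μ ω) u)) q₂ := by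
  classical
  by_cases hne : Nonempty {u : Fin n → FS D // Orthonormal ℝ u}
  swap
  · refine Filter.Eventually.of_forall fun ω _ _ _ => ?_
    rintro ⟨q₁, q₂, -, h1, -⟩
    obtain ⟨u, hu, -⟩ := h1 1 one_pos
    exact hne ⟨⟨u, hu⟩⟩
  obtain ⟨ε, hε, hε0, hae⟩ := hμ.lim
  let fr : ℕ → {u : Fin n → FS D // Orthonormal ℝ u} := TopologicalSpace.denseSeq _
  have hfr : DenseRange fr := TopologicalSpace.denseRange_denseSeq _
  let F : ℕ → ℚ → ℂ → ℝ := fun i s x => sq (fr i).1 x * Real.exp (γ * s * (φ : ℂ → ℝ) x)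
  have hF : ∀ i s, Continuous (F i s) ∧ HasCompactSupport (F i s) ∧ tsupport (F i s) ⊆ D := by
    intro i s
    refine sq_mul (fr i).1 ?_
    have := tf_continuous φ
    fun_prop
  have hK : ∀ i s, ∃ K : ℕ, ∀ k, Measurable[MeasurableSpace.comap
      (fun ω (p : Circ D) => res ξ h φ p ω) inferInstance]
        (Mk γ ξ h φ (ε (k + K)) (F i s)) := by
    intro i s
    obtain ⟨r₀, hr₀, hr⟩ := measurable_Mk hD hG γ φ (hF i s).1 (hF i s).2.1 (hF i s).2.2
    obtain ⟨K, hK⟩ := (hε0.eventually (gt_mem_nhds hr₀)).exists_forall_of_atTop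
    exact ⟨K, fun k => hr _ (hε _) (hK _ (by omega))⟩
  choose K hKm using hK
  let R : Ω → ℚ → ℝ := fun ω s =>
    ⨆ i, limsup (fun k => Mk γ ξ h φ (ε (k + K i s)) (F i s) ω) atTop
  have hRm : Measurable[MeasurableSpace.comap
      (fun ω (p : Circ D) => res ξ h φ p ω) inferInstance] R := by
    rw [@measurable_pi_iff]
    intro s
    exact Measurable.iSup fun i => Measurable.limsup fun k => hKm i s k
  have hle : MeasurableSpace.comap (fun ω (p : Circ D) => res ξ h φ p ω) inferInstance ≤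
      (inferInstance : MeasurableSpace Ω) := by
    apply Measurable.comap_le
    rw [measurable_pi_iff]
    exact fun p => measurable_res hG φ p
  have hRm' : Measurable R := hRm.mono hle le_rfl
  let a : Ω → ℝ := fun ω => ξ φ ω / ((2 * Real.pi)⁻¹ * dir φ φ)
  have ham : Measurable a := (hG.meas_xi φ).div_const _
  have hind : IndepFun R a P := by
    have h1 := (indep_res hG φ hv).symm
    have h2 : IndepFun (fun ω (p : Circ D) => res ξ h φ p ω) a P := by
      have hg : Measurable fun G : Unit → ℝ => G () / ((2 * Real.pi)⁻¹ * dir φ φ) :=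
        (measurable_pi_apply ()).div_const _
      exact h1.comp measurable_id hg
    exact indep_of_indep_of_le_left h2 hRm.comap_le
  have huniq := ae_unique_slope P R a hRm' ham hind (fun t => noatom hG φ hv t)
  filter_upwards [huniq, hae] with ω hω hlim hfin hinf h0
  rintro ⟨q₁, q₂, hq, hs1, hs2⟩
  have hR : ∀ s : ℚ, R ω s = ⨆ i, val (μ ω) γ (a ω) φ (fr i).1 s := by
    intro s
    have h1 : ∀ i, limsup (fun k => Mk γ ξ h φ (ε (k + K i s)) (F i s) ω) atTop =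
        val (μ ω) γ (a ω) φ (fr i).1 s := by
      intro i
      have h2 := tendsto_Mk hD hG γ φ ω ε hε hε0 (μ ω) hlim (hF i s).1 (hF i s).2.1 (hF i s).2.2
      have h3 := h2.comp (tendsto_add_atTop_nat (K i s))
      exact h3.limsup_eq
    change ⨆ i, limsup (fun k => Mk γ ξ h φ (ε (k + K i s)) (F i s) ω) atTop = _
    simp only [h1]
  refine hω ⟨∑ i : Fin n, (lamb (pull (J D (μ ω))) i)⁻¹, γ * q₁, γ * q₂,
    mul_lt_mul_of_pos_left hq hγ, fun s => ?_, fun s => ?_, fun η hη => ?_⟩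
  · rw [hR]
    exact slope_line (μ ω) hinf h0 γ (a ω) φ fr hfr hs1 s
  · rw [hR]
    exact slope_line (μ ω) hinf h0 γ (a ω) φ fr hfr hs2 s
  · obtain ⟨s, hs', hs''⟩ := usc_point (μ ω) hinf h0 γ (a ω) φ fr hη
    exact ⟨s, hs', by rw [hR]; exact hs''⟩

theorem simple_of (hD : IsOpen D) (hb : Bornology.IsBounded D) (hG : IsGFF D P ξ h) {γ : ℝ}
    (hγ : 0 < γ) {μ : Ω → Measure ℂ} (hμ : IsLiouville D P γ h μ) :
    ∀ᵐ ω ∂P, (0 < lam D (μ ω) 0 ∧ Tendsto (lam D (μ ω)) atTop atTop) →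
      (∀ j, lam D (μ ω) j < lam D (μ ω) (j + 1)) ∧ 0 < μ ω D ∧ μ ω D < ⊤ := by
  classical
  obtain ⟨Φ, hΦ⟩ := exists_dense hb
  have hall : ∀ᵐ ω ∂P, ∀ k m : ℕ, 0 < (2 * Real.pi)⁻¹ * dir (Φ m) (Φ m) →
      ∀ (_ : IsFiniteMeasure (μ ω)),
      Tendsto (lamb (pull (J D (μ ω)))) atTop atTop → 0 < lamb (pull (J D (μ ω))) 0 →
      ¬ ∃ q₁ q₂ : ℝ, q₁ < q₂ ∧
        IsSlope (pull (J D (μ ω))) (∑ i : Fin (k + 1), (lamb (pull (J D (μ ω))) i)⁻¹) (k + 1)
          (fun u => inner ℝ (mulOp (μ ω) (Φ m) (J D (μ ω) u)) (J D (μ ω) u)) q₁ ∧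
        IsSlope (pull (J D (μ ω))) (∑ i : Fin (k + 1), (lamb (pull (J D (μ ω))) i)⁻¹) (k + 1)
          (fun u => inner ℝ (mulOp (μ ω) (Φ m) (J D (μ ω) u)) (J D (μ ω) u)) q₂ := by
    rw [ae_all_iff]; intro k
    rw [ae_all_iff]; intro m
    by_cases hv : 0 < (2 * Real.pi)⁻¹ * dir (Φ m) (Φ m)
    · filter_upwards [no_two_slopes hD hG hγ hμ (Φ m) hv (k + 1)] with ω hω _ using hω
    · exact Filter.Eventually.of_forall fun ω h' => absurd h' hv
  filter_upwards [hall, hμ.finite, hμ.carried] with ω hω hfin hcar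
  rintro ⟨h0', hinf'⟩
  have hF : IsFiniteMeasure (μ ω) := ⟨hfin⟩
  have hlam : lam D (μ ω) = lamb (pull (J D (μ ω))) := funext fun j => lam_eq (μ ω) j
  rw [hlam] at h0' hinf' ⊢
  have hp : ∀ u : FS D, 0 ≤ pull (J D (μ ω)) u u := fun u => by
    rw [pull_apply, real_inner_self_eq_norm_sq]; positivity
  refine ⟨fun k => ?_, ?_, ?_⟩
  · refine lt_of_le_of_ne (lamb_mono _ hp hinf' (Nat.le_succ k)) fun hk => ?_
    obtain ⟨m, q₁, q₂, hq, hs1, hs2⟩ := two_slopes (J D (μ ω)) hinf' h0' k hk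
      (fun m => mulOp (μ ω) (Φ m)) (fun m f g => inner_mulOp_symm (μ ω) (Φ m) f g)
      (fun f g h1 h2 => separate hD (μ ω) hcar Φ hΦ f g h1 h2)
    by_cases hv : 0 < (2 * Real.pi)⁻¹ * dir (Φ m) (Φ m)
    · exact hω k m hv hF hinf' h0' ⟨q₁, q₂, hq, hs1, hs2⟩
    · -- degenerate direction
      have hd : dir (Φ m) (Φ m) = 0 := by
        refine le_antisymm ?_ (dir_nonneg (Φ m))
        by_contra hcon
        push Not at hcon
        exact hv (by positivity)
      have hz := eq_zero_of_dir (Φ m) hd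
      have hq0 : ∀ q, IsSlope (pull (J D (μ ω)))
          (∑ i : Fin (k + 1), (lamb (pull (J D (μ ω))) i)⁻¹) (k + 1)
          (fun u => inner ℝ (mulOp (μ ω) (Φ m) (J D (μ ω) u)) (J D (μ ω) u)) q → q = 0 := by
        intro q hsl
        by_contra hq0
        obtain ⟨u, -, -, hu⟩ := hsl (|q| / 2) (by positivity)
        have h1 : ∀ i, inner ℝ (mulOp (μ ω) (Φ m) (J D (μ ω) (u i))) (J D (μ ω) (u i)) = 0 := by
          intro i
          rw [inner_mulOp, hz]
          simp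
        simp only [h1, Finset.sum_const_zero, zero_sub, abs_neg] at hu
        have := abs_pos.mpr hq0
        linarith
      rw [hq0 q₁ hs1, hq0 q₂ hs2] at hq
      exact lt_irrefl _ hq
  · by_contra hcon
    have hzero : μ ω D = 0 := by simpa using hcon
    have huniv : μ ω Set.univ = 0 := by
      rw [← Set.union_compl_self D]
      exact nonpos_iff_eq_zero.mp ((measure_union_le _ _).trans (by rw [hzero, hcar, zero_add]))
    have hmz : μ ω = 0 := Measure.measure_univ_eq_zero.mp huniv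
    obtain ⟨L, V, hV, hL⟩ := set_nonempty (pull (J D (μ ω))) hinf' 0
    have : Nontrivial V := nontrivial_of_finrank_pos (R := ℝ) (by omega)
    obtain ⟨u, hu⟩ := exists_ne (0 : V)
    have h1 := hL u u.2
    have h2 : pull (J D (μ ω)) (u : FS D) (u : FS D) = 0 := by
      rw [pull_J]
      have : ∫ z, ((eqv D).symm (u : FS D) : ℂ → ℝ) z ^ 2 ∂(μ ω) = 0 := by
        rw [hmz]; simp
      exact this
    rw [h2, mul_zero] at h1
    have h3 : (u : FS D) ≠ 0 := by simpa using hu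
    have h4 : 0 < ‖(u : FS D)‖ ^ 2 := by positivity
    linarith
  · exact measure_lt_top _ _

end Pool.Agent.LQG65
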