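import Pool.Agent.LQG65.Space

/-! Multiplication operators by test functions separate pairs of functions in `L²(μ)`. -/

open MeasureTheory Filter Topology Module
open scoped ENNReal

namespace Pool.Agent.LQG65

variable {D : Set ℂ}

section mul

variable (μ : Measure ℂ) [IsFiniteMeasure μ]

omit [IsFiniteMeasure μ] in
theorem tf_memLp_top (φ : TestFn D) : MemLp (φ : ℂ → ℝ) ∞ μ :=
  (tf_continuous φ).memLp_top_of_hasCompactSupport (tf_compact φ) μ

/-- Multiplication by a test function on `L²(μ)`. -/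
noncomputable def mulOp (φ : TestFn D) : Lp ℝ 2 μ →L[ℝ] Lp ℝ 2 μ :=
  (ContinuousLinearMap.mul ℝ ℝ).holderL μ ∞ 2 2 ((tf_memLp_top μ φ).toLp _)

omit [IsFiniteMeasure μ] in
theorem coeFn_mulOp (φ : TestFn D) (f : Lp ℝ 2 μ) :
    mulOp μ φ f =ᵐ[μ] fun x => (φ : ℂ → ℝ) x * f x := by
  have h1 := (ContinuousLinearMap.mul ℝ ℝ).coeFn_holder (r := 2) ((tf_memLp_top μ φ).toLp _) f
  have h2 := (tf_memLp_top μ φ).coeFn_toLp
  filter_upwards [h1, h2] with x hx hx2
  have h3 : mulOp μ φ f = (ContinuousLinearMap.mul ℝ ℝ).holder 2 ((tf_memLp_top μ φ).toLp _) f :=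
    rfl
  rw [h3, hx, hx2]
  rfl

theorem inner_mulOp (φ : TestFn D) (f g : Lp ℝ 2 μ) :
    inner ℝ (mulOp μ φ f) g = ∫ x, (φ : ℂ → ℝ) x * (f x * g x) ∂μ := by
  rw [L2.inner_def]
  refine integral_congr_ae ?_
  filter_upwards [coeFn_mulOp μ φ f] with x hx
  rw [hx]
  have h1 : ∀ a c : ℝ, inner ℝ a c = a * c := fun a c => by
    simp [mul_comm]
  rw [h1]
  ring

theorem inner_mulOp_symm (φ : TestFn D) (f g : Lp ℝ 2 μ) :
    inner ℝ (mulOp μ φ f) g = inner ℝ (mulOp μ φ g) f := by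
  rw [inner_mulOp, inner_mulOp]
  congr 1
  ext x
  ring

theorem inner_mulOp_J (φ : TestFn D) (w : FS D) :
    inner ℝ (mulOp μ φ (J D μ w)) (J D μ w) =
      ∫ x, (φ : ℂ → ℝ) x * ((eqv D).symm w : ℂ → ℝ) x ^ 2 ∂μ := by
  rw [inner_mulOp, J_apply]
  refine integral_congr_ae ?_
  filter_upwards [(tf_memLp μ ((eqv D).symm w)).coeFn_toLp] with x hx
  rw [hx]
  ring

end mul

/-- A countable uniformly dense family of test functions. -/
theorem exists_dense (hb : Bornology.IsBounded D) : ∃ Φ : ℕ → TestFn D, ∀ (φ : TestFn D) (ε : ℝ),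
    0 < ε → ∃ n, ∀ z, |(φ : ℂ → ℝ) z - (Φ n : ℂ → ℝ) z| ≤ ε := by
  classical
  have hK : IsCompact (closure D) := hb.isCompact_closure
  have : CompactSpace (closure D) := isCompact_iff_compactSpace.mp hK
  let r : TestFn D → C(closure D, ℝ) := fun φ => ⟨fun z => (φ : ℂ → ℝ) z, by
    exact (tf_continuous φ).comp continuous_subtype_val⟩
  have : SecondCountableTopology C(closure D, ℝ) := inferInstance
  have : TopologicalSpace.SeparableSpace (Set.range r) := inferInstance
  have : Nonempty (Set.range r) := ⟨⟨r 0, 0, rfl⟩⟩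
  have hch : ∀ n, ∃ φ : TestFn D, r φ = (TopologicalSpace.denseSeq (Set.range r) n : C(closure D, ℝ)) :=
    fun n => (TopologicalSpace.denseSeq (Set.range r) n).2
  choose Φ hΦ using hch
  refine ⟨Φ, fun φ ε hε => ?_⟩
  obtain ⟨n, hn⟩ := (TopologicalSpace.denseRange_denseSeq (Set.range r)).exists_dist_lt
    (⟨r φ, φ, rfl⟩ : Set.range r) hε
  refine ⟨n, fun z => ?_⟩
  by_cases hz : z ∈ closure D
  · have h1 : dist (r φ) (r (Φ n)) < ε := by rw [hΦ n]; exact hn
    have h2 := (ContinuousMap.dist_apply_le_dist (f := r φ) (g := r (Φ n)) ⟨z, hz⟩).trans h1.le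
    rw [Real.dist_eq] at h2
    exact h2
  · have hz' : ∀ ψ : TestFn D, (ψ : ℂ → ℝ) z = 0 := fun ψ =>
      image_eq_zero_of_notMem_tsupport fun h => hz (subset_closure (tf_tsupport ψ h))
    rw [hz', hz']
    simpa using hε.le

theorem separate (hD : IsOpen D) (μ : Measure ℂ) [IsFiniteMeasure μ] (hμ : μ Dᶜ = 0)
    (Φ : ℕ → TestFn D) (hΦ : ∀ (φ : TestFn D) (ε : ℝ), 0 < ε →
      ∃ n, ∀ z, |(φ : ℂ → ℝ) z - (Φ n : ℂ → ℝ) z| ≤ ε)
    (f g : Lp ℝ 2 μ) (h1 : ∀ n, inner ℝ (mulOp μ (Φ n) f) f = inner ℝ (mulOp μ (Φ n) g) g)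
    (h2 : ∀ n, inner ℝ (mulOp μ (Φ n) f) g = 0) : f = 0 := by
  -- a general vanishing statement
  have key : ∀ F : ℂ → ℝ, Integrable F μ → (∀ n, ∫ x, (Φ n : ℂ → ℝ) x * F x ∂μ = 0) →
      ∀ᵐ x ∂μ, F x = 0 := by
    intro F hF hn
    have hint : ∀ φ : TestFn D, Integrable (fun x => (φ : ℂ → ℝ) x * F x) μ := by
      intro φ
      obtain ⟨C, hC⟩ := (tf_compact φ).exists_bound_of_continuous (tf_continuous φ)
      exact hF.bdd_mul (tf_continuous φ).aestronglyMeasurable (Filter.Eventually.of_forall hC)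
    have hall : ∀ φ : TestFn D, ∫ x, (φ : ℂ → ℝ) x * F x ∂μ = 0 := by
      intro φ
      by_contra hne
      have hpos : 0 < |∫ x, (φ : ℂ → ℝ) x * F x ∂μ| := abs_pos.mpr hne
      set A := |∫ x, (φ : ℂ → ℝ) x * F x ∂μ| with hA
      set B := ∫ x, |F x| ∂μ with hB
      have hB0 : 0 ≤ B := integral_nonneg fun x => abs_nonneg _
      obtain ⟨n, hn'⟩ := hΦ φ (A / (2 * (B + 1))) (by positivity)
      have h3 : ∫ x, (φ : ℂ → ℝ) x * F x ∂μ =
          ∫ x, ((φ : ℂ → ℝ) x - (Φ n : ℂ → ℝ) x) * F x ∂μ := by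
        have : (fun x => ((φ : ℂ → ℝ) x - (Φ n : ℂ → ℝ) x) * F x) =
            fun x => (φ : ℂ → ℝ) x * F x - (Φ n : ℂ → ℝ) x * F x := by
          ext x; ring
        rw [this, integral_sub (hint φ) (hint (Φ n)), hn n, sub_zero]
      have h4 : A ≤ A / (2 * (B + 1)) * B := by
        calc A = |∫ x, ((φ : ℂ → ℝ) x - (Φ n : ℂ → ℝ) x) * F x ∂μ| := by rw [hA, h3]
          _ ≤ ∫ x, |((φ : ℂ → ℝ) x - (Φ n : ℂ → ℝ) x) * F x| ∂μ := abs_integral_le_integral_abs
          _ ≤ ∫ x, A / (2 * (B + 1)) * |F x| ∂μ := by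
              refine integral_mono_of_nonneg (Filter.Eventually.of_forall fun x => abs_nonneg _)
                (hF.abs.const_mul _) (Filter.Eventually.of_forall fun x => ?_)
              simp only [abs_mul]
              exact mul_le_mul_of_nonneg_right (hn' x) (abs_nonneg _)
          _ = A / (2 * (B + 1)) * B := by rw [integral_const_mul]
      have h5 : A / (2 * (B + 1)) * B < A := by
        rw [div_mul_eq_mul_div, div_lt_iff₀ (by positivity)]
        nlinarith
      linarith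
    have hae := hD.ae_eq_zero_of_integral_contDiff_smul_eq_zero (μ := μ) (f := F)
      (hF.locallyIntegrable.locallyIntegrableOn D) (by
        intro φ hφ1 hφ2 hφ3
        have := hall ⟨φ, hφ1, hφ2, hφ3⟩
        simpa [smul_eq_mul] using this)
    have hDae : ∀ᵐ x ∂μ, x ∈ D := by
      rw [ae_iff]; exact hμ
    filter_upwards [hae, hDae] with x hx hx' using hx hx'
  have hf := Lp.memLp f
  have hg := Lp.memLp g
  have hff : Integrable (fun x => f x * f x) μ := hf.integrable_mul hf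
  have hgg : Integrable (fun x => g x * g x) μ := hg.integrable_mul hg
  have hfg : Integrable (fun x => f x * g x) μ := hf.integrable_mul hg
  have a1 := key (fun x => f x * f x - g x * g x) (hff.sub hgg) (by
    intro n
    have h3 := h1 n
    rw [inner_mulOp, inner_mulOp] at h3
    have hb' : ∀ F : ℂ → ℝ, Integrable F μ →
        Integrable (fun x => (Φ n : ℂ → ℝ) x * F x) μ := by
      intro F hF
      obtain ⟨C, hC⟩ := (tf_compact (Φ n)).exists_bound_of_continuous (tf_continuous (Φ n))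
      exact hF.bdd_mul (tf_continuous (Φ n)).aestronglyMeasurable (Filter.Eventually.of_forall hC)
    have h4 : (fun x => (Φ n : ℂ → ℝ) x * (f x * f x - g x * g x)) = fun x =>
        (Φ n : ℂ → ℝ) x * (f x * f x) - (Φ n : ℂ → ℝ) x * (g x * g x) := by
      ext x; ring
    rw [h4, integral_sub (hb' _ hff) (hb' _ hgg), h3, sub_self])
  have a2 := key (fun x => f x * g x) hfg (by
    intro n
    have h3 := h2 n
    rw [inner_mulOp] at h3
    exact h3)
  have a3 : f =ᵐ[μ] (0 : Lp ℝ 2 μ) := by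
    filter_upwards [a1, a2, Lp.coeFn_zero ℝ 2 μ] with x h3 h4 h5
    rw [h5]
    simp only [Pi.zero_apply]
    have h6 : f x * f x * (f x * f x) = 0 := by
      have : f x * f x = g x * g x := by linarith
      calc f x * f x * (f x * f x) = f x * f x * (g x * g x) := by rw [this]
        _ = (f x * g x) * (f x * g x) := by ring
        _ = 0 := by rw [h4]; ring
    have h7 : f x * f x = 0 := mul_self_eq_zero.mp h6
    exact mul_self_eq_zero.mp h7
  exact Lp.ext a3

end Pool.Agent.LQG65
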