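import Pool.Agent.LQG65.Compact

/-! A double min-max value gives two different supporting slopes in some direction. -/

open Module Submodule Filter Topology

namespace Pool.Agent.LQG65

variable {W : Type*} [NormedAddCommGroup W] [InnerProductSpace ℝ W]

/-- `q` is a limit of values of the additive functional `t` along near-optimal frames. -/
def IsSlope (b : W →ₗ[ℝ] W →ₗ[ℝ] ℝ) (S : ℝ) (k : ℕ) (t : W → ℝ) (q : ℝ) : Prop :=
  ∀ ε > 0, ∃ u : Fin k → W, Orthonormal ℝ u ∧ S - ε ≤ ∑ i, b (u i) (u i) ∧
    |∑ i, t (u i) - q| ≤ ε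

theorem orthonormal_snoc {k : ℕ} (e : Fin (k + 2) → W) (he : Orthonormal ℝ e) (c s : ℝ)
    (hcs : c ^ 2 + s ^ 2 = 1) :
    Orthonormal ℝ (Fin.snoc (α := fun _ => W) (fun i : Fin k => e i.castSucc.castSucc)
      (c • e (Fin.last k).castSucc + s • e (Fin.last (k + 1))) : Fin (k + 1) → W) := by
  classical
  have hee := orthonormal_iff_ite.mp he
  rw [orthonormal_iff_ite]
  intro i j
  induction i using Fin.lastCases with
  | last =>
    induction j using Fin.lastCases with
    | last =>
      simp only [Fin.snoc_last, inner_add_left, inner_add_right, real_inner_smul_left,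
        real_inner_smul_right, hee]
      have h1 : (Fin.last k).castSucc ≠ Fin.last (k + 1) := (Fin.castSucc_lt_last _).ne
      have h2 : Fin.last (k + 1) ≠ (Fin.last k).castSucc := h1.symm
      simp only [if_true, if_neg h1, if_neg h2]
      nlinarith
    | cast j =>
      simp only [Fin.snoc_last, Fin.snoc_castSucc, inner_add_left, real_inner_smul_left, hee]
      have h1 : (Fin.last k).castSucc ≠ j.castSucc.castSucc := by
        intro h
        have := Fin.castSucc_injective _ h
        exact (Fin.castSucc_lt_last j).ne this.symm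
      have h2 : Fin.last (k + 1) ≠ j.castSucc.castSucc := (Fin.castSucc_lt_last _).ne'
      have h3 : Fin.last k ≠ j.castSucc := (Fin.castSucc_lt_last j).ne'
      simp [if_neg h2, if_neg h3]
  | cast i =>
    induction j using Fin.lastCases with
    | last =>
      simp only [Fin.snoc_last, Fin.snoc_castSucc, inner_add_right, real_inner_smul_right, hee]
      have h1 : i.castSucc.castSucc ≠ (Fin.last k).castSucc := by
        intro h
        have := Fin.castSucc_injective _ h
        exact (Fin.castSucc_lt_last i).ne this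
      have h2 : i.castSucc.castSucc ≠ Fin.last (k + 1) := (Fin.castSucc_lt_last _).ne
      have h3 : i.castSucc ≠ Fin.last k := (Fin.castSucc_lt_last i).ne
      simp [h2, h3]
    | cast j =>
      simp only [Fin.snoc_castSucc, hee]
      simp [Fin.castSucc_inj]

variable {F : Type*} [NormedAddCommGroup F] [InnerProductSpace ℝ F] [CompleteSpace F]

/-- The form `⟪J u, J v⟫`. -/
noncomputable def pull (J : W →ₗ[ℝ] F) : W →ₗ[ℝ] W →ₗ[ℝ] ℝ := (innerₗ F).compl₁₂ J J

omit [CompleteSpace F] in
theorem pull_apply (J : W →ₗ[ℝ] F) (u v : W) : pull J u v = inner ℝ (J u) (J v) := rfl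

/-- Two distinct slopes at a double value. -/
theorem two_slopes (J : W →ₗ[ℝ] F)
    (hinf : Filter.Tendsto (lamb (pull J)) Filter.atTop Filter.atTop)
    (h0 : 0 < lamb (pull J) 0) (k : ℕ) (hk : lamb (pull J) k = lamb (pull J) (k + 1))
    (M : ℕ → F →L[ℝ] F) (hM : ∀ n f g, inner ℝ (M n f) g = inner ℝ (M n g) f)
    (hsep : ∀ f g : F, (∀ n, inner ℝ (M n f) f = inner ℝ (M n g) g) →
      (∀ n, inner ℝ (M n f) g = 0) → f = 0) :
    ∃ n q₁ q₂, q₁ < q₂ ∧
      IsSlope (pull J) (∑ i : Fin (k + 1), (lamb (pull J) i)⁻¹) (k + 1)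
        (fun u => inner ℝ (M n (J u)) (J u)) q₁ ∧
      IsSlope (pull J) (∑ i : Fin (k + 1), (lamb (pull J) i)⁻¹) (k + 1)
        (fun u => inner ℝ (M n (J u)) (J u)) q₂ := by
  classical
  set b := pull J with hb
  have hp : ∀ u, 0 ≤ b u u := fun u => by
    rw [hb, pull_apply, real_inner_self_eq_norm_sq]; positivity
  have hs : ∀ u v, b u v = b v u := fun u v => by
    rw [hb, pull_apply, pull_apply, real_inner_comm]
  by_contra hcon
  have huniq : ∀ n q₁ q₂,
      IsSlope b (∑ i : Fin (k + 1), (lamb b i)⁻¹) (k + 1)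
        (fun u => inner ℝ (M n (J u)) (J u)) q₁ →
      IsSlope b (∑ i : Fin (k + 1), (lamb b i)⁻¹) (k + 1)
        (fun u => inner ℝ (M n (J u)) (J u)) q₂ → q₁ = q₂ := by
    intro n q₁ q₂ h1 h2
    by_contra hne
    rcases lt_or_gt_of_ne hne with h | h
    · exact hcon ⟨n, q₁, q₂, h, h1, h2⟩
    · exact hcon ⟨n, q₂, q₁, h, h2, h1⟩
  -- near-optimal frames
  have hfr : ∀ m : ℕ, ∃ e : Fin (k + 2) → W, Orthonormal ℝ e ∧
      (∀ i j, i ≠ j → b (e i) (e j) = 0) ∧
      ∀ i : Fin (k + 2), (lamb b i)⁻¹ - 1 / ((m : ℝ) + 1) ≤ b (e i) (e i) := fun m =>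
    exists_frame b hp hinf h0 hs (k + 2) (by positivity)
  choose e heo heb hel using hfr
  let U : Ultrafilter ℕ := hyperfilter ℕ
  have hU : (U : Filter ℕ) ≤ atTop := by
    rw [← Nat.cofinite_eq_atTop]
    exact hyperfilter_le_cofinite
  -- limits
  have hlim : ∀ i : Fin (k + 2), ∃ E : F, Tendsto (fun m => J (e m i)) U (𝓝 E) := by
    intro i
    have hc : Cauchy (Filter.map (fun m => J (e m i)) (U : Filter ℕ)) := by
      rw [Metric.cauchy_iff]
      refine ⟨inferInstance, fun ε hε => ?_⟩
      obtain ⟨A, hA, hA'⟩ := cauchy_ultra b hp hinf h0 hs U (fun m => e m i)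
        (fun m => ((heo m).1 i).le) (ε := (ε / 2) ^ 2) (by positivity)
      refine ⟨(fun m => J (e m i)) '' A, Filter.image_mem_map hA, ?_⟩
      rintro _ ⟨p, hp', rfl⟩ _ ⟨q, hq', rfl⟩
      have h1 := hA' p hp' q hq'
      rw [hb, pull_apply, real_inner_self_eq_norm_sq, map_sub] at h1
      have h2 := abs_le_of_sq_le_sq h1 (by positivity)
      rw [dist_eq_norm]
      have h3 := le_abs_self ‖J (e p i) - J (e q i)‖
      linarith
    obtain ⟨E, hE⟩ := CompleteSpace.complete hc
    exact ⟨E, hE⟩
  choose E hE using hlim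
  have hlast : (Fin.last k).castSucc ≠ Fin.last (k + 1) := (Fin.castSucc_lt_last _).ne
  -- general slope
  have hgen : ∀ n (c s : ℝ), c ^ 2 + s ^ 2 = 1 →
      IsSlope b (∑ i : Fin (k + 1), (lamb b i)⁻¹) (k + 1)
        (fun u => inner ℝ (M n (J u)) (J u))
        (∑ i : Fin k, inner ℝ (M n (E i.castSucc.castSucc)) (E i.castSucc.castSucc) +
          inner ℝ (M n (c • E (Fin.last k).castSucc + s • E (Fin.last (k + 1))))
            (c • E (Fin.last k).castSucc + s • E (Fin.last (k + 1)))) := by
    intro n c s hcs ε hε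
    let u : ℕ → Fin (k + 1) → W := fun m =>
      Fin.snoc (α := fun _ => W) (fun i : Fin k => e m i.castSucc.castSucc)
      (c • e m (Fin.last k).castSucc + s • e m (Fin.last (k + 1)))
    have hcont : ∀ (f : ℕ → F) (g : F), Tendsto f U (𝓝 g) →
        Tendsto (fun m => inner ℝ (M n (f m)) (f m)) U (𝓝 (inner ℝ (M n g) g)) := by
      intro f g hfg
      exact Filter.Tendsto.inner (((M n).continuous.tendsto g).comp hfg) hfg
    have hT : Tendsto (fun m => ∑ i, inner ℝ (M n (J (u m i))) (J (u m i))) U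
        (𝓝 (∑ i : Fin k, inner ℝ (M n (E i.castSucc.castSucc)) (E i.castSucc.castSucc) +
          inner ℝ (M n (c • E (Fin.last k).castSucc + s • E (Fin.last (k + 1))))
            (c • E (Fin.last k).castSucc + s • E (Fin.last (k + 1))))) := by
      have h1 : ∀ m, ∑ i, inner ℝ (M n (J (u m i))) (J (u m i)) =
          ∑ i : Fin k, inner ℝ (M n (J (e m i.castSucc.castSucc))) (J (e m i.castSucc.castSucc)) +
          inner ℝ (M n (J (c • e m (Fin.last k).castSucc + s • e m (Fin.last (k + 1)))))
            (J (c • e m (Fin.last k).castSucc + s • e m (Fin.last (k + 1)))) := by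
        intro m
        rw [Fin.sum_univ_castSucc]
        simp only [u, Fin.snoc_castSucc, Fin.snoc_last]
      simp only [h1]
      refine Filter.Tendsto.add (tendsto_finsetSum _ fun i _ => hcont _ _ (hE _)) ?_
      refine hcont _ _ ?_
      simp only [map_add, map_smul]
      exact ((hE _).const_smul c).add ((hE _).const_smul s)
    have hev1 : ∀ᶠ m in (U : Filter ℕ), |∑ i, inner ℝ (M n (J (u m i))) (J (u m i)) -
        (∑ i : Fin k, inner ℝ (M n (E i.castSucc.castSucc)) (E i.castSucc.castSucc) +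
          inner ℝ (M n (c • E (Fin.last k).castSucc + s • E (Fin.last (k + 1))))
            (c • E (Fin.last k).castSucc + s • E (Fin.last (k + 1))))| < ε := by
      have := (Metric.tendsto_nhds.mp hT) ε hε
      simpa [Real.dist_eq] using this
    have hev2 : ∀ᶠ m : ℕ in (U : Filter ℕ), ((k : ℝ) + 1) * (1 / ((m : ℝ) + 1)) < ε := by
      apply hU
      have h1 : Tendsto (fun m : ℕ => ((k : ℝ) + 1) * (1 / ((m : ℝ) + 1))) atTop (𝓝 0) := by
        have := (tendsto_one_div_add_atTop_nhds_zero_nat (𝕜 := ℝ)).const_mul ((k : ℝ) + 1)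
        simpa using this
      exact h1.eventually (gt_mem_nhds hε)
    obtain ⟨m, hm1, hm2⟩ := (hev1.and hev2).exists
    refine ⟨u m, orthonormal_snoc (e m) (heo m) c s hcs, ?_, hm1.le⟩
    -- the sum of b
    have hsum : ∑ i, b (u m i) (u m i) =
        ∑ i : Fin k, b (e m i.castSucc.castSucc) (e m i.castSucc.castSucc) +
        (c ^ 2 * b (e m (Fin.last k).castSucc) (e m (Fin.last k).castSucc) +
          s ^ 2 * b (e m (Fin.last (k + 1))) (e m (Fin.last (k + 1)))) := by
      rw [Fin.sum_univ_castSucc]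
      simp only [u, Fin.snoc_castSucc, Fin.snoc_last]
      congr 1
      have h1 := heb m _ _ hlast
      have h2 := heb m _ _ hlast.symm
      simp only [map_add, map_smul, LinearMap.add_apply, LinearMap.smul_apply, smul_eq_mul, h1, h2]
      ring
    rw [hsum, Fin.sum_univ_castSucc]
    set r : ℝ := 1 / ((m : ℝ) + 1) with hr
    have h3 : ∑ i : Fin k, ((lamb b (i.castSucc : Fin (k+1)))⁻¹ - r) ≤
        ∑ i : Fin k, b (e m i.castSucc.castSucc) (e m i.castSucc.castSucc) := by
      refine Finset.sum_le_sum fun i _ => ?_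
      have := hel m i.castSucc.castSucc
      simp only [Fin.val_castSucc] at this ⊢
      exact this
    rw [Finset.sum_sub_distrib] at h3
    simp only [Finset.sum_const, Finset.card_univ, Fintype.card_fin, nsmul_eq_mul] at h3
    have h4 := hel m (Fin.last k).castSucc
    have h5 := hel m (Fin.last (k + 1))
    simp only [Fin.val_castSucc, Fin.val_last] at h4 h5
    rw [← hk] at h5
    have h6 : (lamb b k)⁻¹ - r ≤ c ^ 2 * b (e m (Fin.last k).castSucc) (e m (Fin.last k).castSucc) +
          s ^ 2 * b (e m (Fin.last (k + 1))) (e m (Fin.last (k + 1))) := by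
      have h7 := mul_le_mul_of_nonneg_left h4 (sq_nonneg c)
      have h8 := mul_le_mul_of_nonneg_left h5 (sq_nonneg s)
      have h9 : (lamb b k)⁻¹ - r = c ^ 2 * ((lamb b k)⁻¹ - r) + s ^ 2 * ((lamb b k)⁻¹ - r) := by
        rw [← add_mul, hcs, one_mul]
      rw [h9]
      exact add_le_add h7 h8
    simp only [Fin.val_last] at *
    have h10 : ((k : ℝ) + 1) * r = k * r + r := by ring
    linarith
  -- conclusion
  set f := E (Fin.last k).castSucc with hf
  set g := E (Fin.last (k + 1)) with hg
  have hx : ∀ n, inner ℝ (M n f) f = inner ℝ (M n g) g := by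
    intro n
    have h1 := huniq n _ _ (hgen n 1 0 (by norm_num)) (hgen n 0 1 (by norm_num))
    simpa using h1
  have hz : ∀ n, inner ℝ (M n f) g = 0 := by
    intro n
    have h1 := huniq n _ _ (hgen n 1 0 (by norm_num)) (hgen n (3/5) (4/5) (by norm_num))
    have h2 := hx n
    have h3 := hM n f g
    simp only [one_smul, zero_smul, add_zero, map_add, map_smul, inner_add_left, inner_add_right,
      real_inner_smul_left, real_inner_smul_right] at h1
    linarith
  have hf0 := hsep f g hx hz
  -- norm of f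
  have hn : Tendsto (fun m => b (e m (Fin.last k).castSucc) (e m (Fin.last k).castSucc)) U
      (𝓝 (inner ℝ f f)) := (hE _).inner (hE _)
  have hn2 : (lamb b k)⁻¹ ≤ inner ℝ f f := by
    have h1 : Tendsto (fun m : ℕ => (lamb b k)⁻¹ - 1 / ((m : ℝ) + 1)) U (𝓝 ((lamb b k)⁻¹ - 0)) :=
      ((tendsto_one_div_add_atTop_nhds_zero_nat (𝕜 := ℝ)).const_sub _).mono_left hU
    rw [sub_zero] at h1
    refine le_of_tendsto_of_tendsto' h1 hn fun m => ?_
    have := hel m (Fin.last k).castSucc
    simpa using this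
  rw [hf0, inner_zero_left] at hn2
  have := inv_pos.mpr (lamb_pos b hp hinf h0 k)
  linarith

end Pool.Agent.LQG65
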