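import Pool.Agent.LQG65.Defs
import Pool.Agent.LQG65.Slope

/-! The form space as a subspace of an `L²` space, and the transport of the min-max values. -/

open MeasureTheory Filter Topology Module
open scoped ENNReal

namespace Pool.Agent.LQG65

variable {D : Set ℂ}

section basic

theorem tf_contDiff (u : TestFn D) : ContDiff ℝ (⊤ : ℕ∞) (u : ℂ → ℝ) := u.2.1

theorem tf_continuous (u : TestFn D) : Continuous (u : ℂ → ℝ) := u.2.1.continuous

theorem tf_compact (u : TestFn D) : HasCompactSupport (u : ℂ → ℝ) := u.2.2.1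

theorem tf_tsupport (u : TestFn D) : tsupport (u : ℂ → ℝ) ⊆ D := u.2.2.2

theorem tf_diff (u : TestFn D) : Differentiable ℝ (u : ℂ → ℝ) :=
  (tf_contDiff u).differentiable (by simp)

theorem tf_fderiv (u : TestFn D) : Continuous (fderiv ℝ (u : ℂ → ℝ)) :=
  (tf_contDiff u).continuous_fderiv (by simp)

/-- Gradient as a complex-valued function. -/
noncomputable def grad (u : ℂ → ℝ) (z : ℂ) : ℂ :=
  ⟨fderiv ℝ u z 1, fderiv ℝ u z Complex.I⟩

theorem grad_continuous (u : TestFn D) : Continuous (grad (u : ℂ → ℝ)) := by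
  have h1 : Continuous fun z => fderiv ℝ (u : ℂ → ℝ) z 1 := (tf_fderiv u).clm_apply continuous_const
  have h2 : Continuous fun z => fderiv ℝ (u : ℂ → ℝ) z Complex.I :=
    (tf_fderiv u).clm_apply continuous_const
  have h3 : grad (u : ℂ → ℝ) = fun z => ((fderiv ℝ (u : ℂ → ℝ) z 1 : ℝ) : ℂ) +
      ((fderiv ℝ (u : ℂ → ℝ) z Complex.I : ℝ) : ℂ) * Complex.I := by
    ext z
    exact Complex.mk_eq_add_mul_I _ _
  rw [h3]
  fun_prop

theorem grad_compact (u : TestFn D) : HasCompactSupport (grad (u : ℂ → ℝ)) := by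
  refine ((tf_compact u).fderiv ℝ).mono ?_
  intro z hz h
  apply hz
  simp only [grad]
  rw [h]
  rfl

theorem grad_memLp (u : TestFn D) : MemLp (grad (u : ℂ → ℝ)) 2 (volume : Measure ℂ) :=
  (grad_continuous u).memLp_of_hasCompactSupport (grad_compact u)

theorem grad_add (u v : TestFn D) : grad ((u + v : TestFn D) : ℂ → ℝ) =
    grad (u : ℂ → ℝ) + grad (v : ℂ → ℝ) := by
  ext z
  have : fderiv ℝ ((u + v : TestFn D) : ℂ → ℝ) z =
      fderiv ℝ (u : ℂ → ℝ) z + fderiv ℝ (v : ℂ → ℝ) z :=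
    fderiv_add (tf_diff u z) (tf_diff v z)
  simp only [grad, this, Pi.add_apply]
  rfl

theorem grad_smul (c : ℝ) (u : TestFn D) : grad ((c • u : TestFn D) : ℂ → ℝ) =
    c • grad (u : ℂ → ℝ) := by
  ext z
  have : fderiv ℝ ((c • u : TestFn D) : ℂ → ℝ) z = c • fderiv ℝ (u : ℂ → ℝ) z :=
    fderiv_const_smul (tf_diff u z) c
  simp only [grad, this, Pi.smul_apply]
  apply Complex.ext <;> simp

variable (D) in
/-- The normalised gradient as an element of `L²`. -/
noncomputable def iota : TestFn D →ₗ[ℝ] Lp ℂ 2 (volume : Measure ℂ) where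
  toFun u := (Real.sqrt 2)⁻¹ • (grad_memLp u).toLp _
  map_add' u v := by
    rw [← smul_add, ← MemLp.toLp_add]
    congr 1
    exact MemLp.toLp_congr _ _ (by rw [grad_add])
  map_smul' c u := by
    have h : (grad_memLp (c • u)).toLp _ = c • (grad_memLp u).toLp _ := by
      rw [← MemLp.toLp_const_smul]
      exact MemLp.toLp_congr _ _ (by rw [grad_smul])
    rw [RingHom.id_apply, smul_comm, h]

theorem norm_iota (u : TestFn D) : ‖iota D u‖ ^ 2 = (1 / 2) * dir u u := by
  have h1 : iota D u = (Real.sqrt 2)⁻¹ • (grad_memLp u).toLp _ := rfl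
  rw [h1, norm_smul, mul_pow, norm_inv, Real.norm_eq_abs, inv_pow, sq_abs, Real.sq_sqrt (by norm_num)]
  rw [one_div]
  congr 1
  rw [← real_inner_self_eq_norm_sq, L2.inner_def]
  rw [dir]
  refine integral_congr_ae ?_
  filter_upwards [(grad_memLp u).coeFn_toLp] with z hz
  rw [hz, real_inner_self_eq_norm_sq, ← Complex.normSq_eq_norm_sq, Complex.normSq_apply]
  rfl

theorem dir_nonneg (u : TestFn D) : 0 ≤ dir u u := by
  have := norm_iota u
  nlinarith [sq_nonneg ‖iota D u‖]

theorem eq_zero_of_dir (u : TestFn D) (h : dir u u = 0) : u = 0 := by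
  have h1 : (grad_memLp u).toLp _ = 0 := by
    have h2 := norm_iota u
    rw [h, mul_zero] at h2
    have h3 : iota D u = 0 := by
      rw [← norm_eq_zero]
      exact pow_eq_zero_iff (two_ne_zero) |>.mp h2
    have h4 : (Real.sqrt 2)⁻¹ • (grad_memLp u).toLp _ = (0 : Lp ℂ 2 (volume : Measure ℂ)) := h3
    rcases smul_eq_zero.mp h4 with h5 | h5
    · exact absurd h5 (by positivity)
    · exact h5
  have h2 : grad (u : ℂ → ℝ) =ᵐ[volume] 0 := by
    have h3 := (grad_memLp u).coeFn_toLp
    rw [h1] at h3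
    exact h3.symm.trans (Lp.coeFn_zero _ _ _)
  have h3 : grad (u : ℂ → ℝ) = 0 :=
    (Continuous.ae_eq_iff_eq volume (grad_continuous u) continuous_const).mp h2
  have h4 : ∀ z, fderiv ℝ (u : ℂ → ℝ) z = 0 := by
    intro z
    have h5 := congrFun h3 z
    have h6 : fderiv ℝ (u : ℂ → ℝ) z 1 = 0 := congrArg Complex.re h5
    have h7 : fderiv ℝ (u : ℂ → ℝ) z Complex.I = 0 := congrArg Complex.im h5
    ext w
    have h8 : w = (w.re : ℝ) • (1 : ℂ) + (w.im : ℝ) • Complex.I := by
      apply Complex.ext <;> simp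
    rw [h8, map_add, map_smul, map_smul, h6, h7]
    simp
  -- constant
  obtain ⟨w, hw⟩ : ∃ w, w ∉ tsupport (u : ℂ → ℝ) := by
    by_contra hcon
    push Not at hcon
    have h9 : tsupport (u : ℂ → ℝ) = Set.univ := Set.eq_univ_of_forall hcon
    have h10 : IsCompact (Set.univ : Set ℂ) := h9 ▸ tf_compact u
    exact noncompact_univ ℂ h10
  have h11 : (u : ℂ → ℝ) w = 0 := image_eq_zero_of_notMem_tsupport hw
  apply Subtype.ext
  ext z
  rw [is_const_of_fderiv_eq_zero (tf_diff u) h4 z w, h11]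
  rfl

theorem iota_injective : Function.Injective (iota D) := by
  rw [← LinearMap.ker_eq_bot, LinearMap.ker_eq_bot']
  intro u hu
  apply eq_zero_of_dir
  have := norm_iota u
  rw [hu, norm_zero] at this
  linarith

variable (D) in
/-- The form space. -/
abbrev FS : Type := LinearMap.range (iota D)

variable (D) in
/-- Test functions and the form space. -/
noncomputable def eqv : TestFn D ≃ₗ[ℝ] FS D := LinearEquiv.ofInjective (iota D) iota_injective

theorem norm_eqv (u : TestFn D) : ‖eqv D u‖ ^ 2 = (1 / 2) * dir u u := norm_iota u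

theorem norm_sq_FS (w : FS D) : ‖w‖ ^ 2 = (1 / 2) * dir ((eqv D).symm w) ((eqv D).symm w) := by
  rw [← norm_eqv, LinearEquiv.apply_symm_apply]

instance : SecondCountableTopology (FS D) := by
  have : Fact ((2 : ℝ≥0∞) ≠ ∞) := ⟨by norm_num⟩
  have : SecondCountableTopology (Lp ℂ 2 (volume : Measure ℂ)) := inferInstance
  exact TopologicalSpace.Subtype.secondCountableTopology _

end basic

section measure

variable (μ : Measure ℂ) [IsFiniteMeasure μ]

theorem tf_memLp (u : TestFn D) : MemLp (u : ℂ → ℝ) 2 μ :=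
  (tf_continuous u).memLp_of_hasCompactSupport (tf_compact u)

variable (D) in
/-- The class in `L²(μ)`. -/
noncomputable def Jt : TestFn D →ₗ[ℝ] Lp ℝ 2 μ where
  toFun u := (tf_memLp μ u).toLp _
  map_add' u v := by
    rw [← MemLp.toLp_add]; rfl
  map_smul' c u := by
    rw [RingHom.id_apply, ← MemLp.toLp_const_smul]; rfl

variable (D) in
/-- The class in `L²(μ)` as a map on the form space. -/
noncomputable def J : FS D →ₗ[ℝ] Lp ℝ 2 μ := (Jt D μ) ∘ₗ (eqv D).symm.toLinearMap

theorem J_eqv (u : TestFn D) : J D μ (eqv D u) = (tf_memLp μ u).toLp _ := by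
  simp only [J, LinearMap.comp_apply, LinearEquiv.coe_coe, LinearEquiv.symm_apply_apply]
  rfl

theorem J_apply (w : FS D) : J D μ w = (tf_memLp μ ((eqv D).symm w)).toLp _ := rfl

theorem pull_J (w : FS D) : pull (J D μ) w w = ∫ z, ((eqv D).symm w : ℂ → ℝ) z ^ 2 ∂μ := by
  rw [pull_apply, J_apply, L2.inner_def]
  refine integral_congr_ae ?_
  filter_upwards [(tf_memLp μ ((eqv D).symm w)).coeFn_toLp] with z hz
  rw [hz, real_inner_self_eq_norm_sq, Real.norm_eq_abs, sq_abs]

theorem lam_eq (j : ℕ) : lam D μ j = lamb (pull (J D μ)) j := by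
  rw [lam, lamb]
  congr 1
  ext L
  constructor
  · rintro ⟨V, hV, h⟩
    refine ⟨V.map (eqv D).toLinearMap, ?_, ?_⟩
    · rw [← hV]
      exact LinearEquiv.finrank_map_eq (eqv D) V
    · rintro _ ⟨u, hu, rfl⟩
      have h1 := h u hu
      have h2 : (eqv D).toLinearMap u = eqv D u := rfl
      rw [h2, norm_eqv, pull_J, LinearEquiv.symm_apply_apply]
      exact h1
  · rintro ⟨V, hV, h⟩
    refine ⟨V.map (eqv D).symm.toLinearMap, ?_, ?_⟩
    · rw [← hV]
      exact LinearEquiv.finrank_map_eq (eqv D).symm V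
    · rintro _ ⟨w, hw, rfl⟩
      have h1 := h w hw
      have h2 : (eqv D).symm.toLinearMap w = (eqv D).symm w := rfl
      rw [norm_sq_FS, pull_J] at h1
      rw [h2]
      exact h1

end measure

end Pool.Agent.LQG65
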