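import Mathlib

/-! Finite-dimensional spectral facts for two quadratic forms, one of them the inner product. -/

open Module Submodule

namespace Pool.Agent.LQG65

variable {W : Type*} [NormedAddCommGroup W] [InnerProductSpace ℝ W]

/-- Simultaneous diagonalisation on a finite-dimensional subspace. -/
theorem diag (b : W →ₗ[ℝ] W →ₗ[ℝ] ℝ) (hs : ∀ u v, b u v = b v u) (V : Submodule ℝ W)
    [FiniteDimensional ℝ V] {n : ℕ} (hn : finrank ℝ V = n) :
    ∃ f : Fin n → W, Orthonormal ℝ f ∧ (∀ i, f i ∈ V) ∧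
      (∀ i j, i ≠ j → b (f i) (f j) = 0) ∧ (Antitone fun i => b (f i) (f i)) ∧
      (∀ u ∈ V, b u u = ∑ l, (inner ℝ (f l) u) ^ 2 * b (f l) (f l)) ∧
      (∀ u ∈ V, ‖u‖ ^ 2 = ∑ l, (inner ℝ (f l) u) ^ 2) ∧
      (∀ g : Fin n → W, Orthonormal ℝ g → (∀ i, g i ∈ V) →
        ∑ i, b (g i) (g i) = ∑ i, b (f i) (f i)) := by
  classical
  have : CompleteSpace V := FiniteDimensional.complete ℝ V
  let B : V →ₗ[ℝ] (V →L[ℝ] ℝ) :=
    (LinearMap.toContinuousLinearMap : (V →ₗ[ℝ] ℝ) ≃ₗ[ℝ] (V →L[ℝ] ℝ)).toLinearMap ∘ₗ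
      { toFun := fun x => (b x).comp V.subtype
        map_add' := by intro x y; ext z; simp
        map_smul' := by intro c x; ext z; simp }
  have hB : ∀ x y : V, B x y = b x y := by intro x y; simp [B]
  let T : V →ₗ[ℝ] V :=
    { toFun := fun x => (InnerProductSpace.toDual ℝ V).symm (B x)
      map_add' := by intro x y; simp
      map_smul' := by intro c x; simp }
  have hT : ∀ x y : V, inner ℝ (T x) y = b x y := by
    intro x y
    change inner ℝ ((InnerProductSpace.toDual ℝ V).symm (B x)) y = _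
    rw [InnerProductSpace.toDual_symm_apply, hB]
  have hsym : T.IsSymmetric := by
    intro x y
    rw [hT, real_inner_comm, hT, hs]
  let e := hsym.eigenvectorBasis hn
  have he : ∀ i, T (e i) = (hsym.eigenvalues hn i) • e i := fun i =>
    hsym.apply_eigenvectorBasis hn i
  have hee : ∀ i j, b (e i) (e j) = if i = j then hsym.eigenvalues hn i else 0 := by
    intro i j
    rw [← hT, he, real_inner_smul_left, orthonormal_iff_ite.mp e.orthonormal]
    split_ifs <;> simp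
  have heii : ∀ i, b (e i) (e i) = hsym.eigenvalues hn i := by
    intro i; rw [hee]; simp
  refine ⟨fun i => (e i : W), ?_, fun i => (e i).2, ?_, ?_, ?_, ?_, ?_⟩
  · exact e.orthonormal.comp_linearIsometry V.subtypeₗᵢ
  · intro i j hij
    rw [hee, if_neg hij]
  · intro i j hij
    simp only [heii]
    exact hsym.eigenvalues_antitone hn hij
  · intro u hu
    have h1 : (⟨u, hu⟩ : V) = ∑ l, (inner ℝ (e l) (⟨u, hu⟩ : V)) • e l :=
      (e.sum_repr' ⟨u, hu⟩).symm
    have h2 : u = ∑ l, (inner ℝ (e l : W) u) • (e l : W) := by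
      have := congrArg (Subtype.val) h1
      simpa using this
    have h3 : b u u = b u (∑ l, (inner ℝ (e l : W) u) • (e l : W)) := by rw [← h2]
    rw [h3, map_sum]
    refine Finset.sum_congr rfl fun l _ => ?_
    rw [map_smul, smul_eq_mul]
    have h4 : b u (e l : W) = (inner ℝ (e l : W) u) * b (e l) (e l) := by
      have h5 : b u (e l : W) = b (∑ l, (inner ℝ (e l : W) u) • (e l : W)) (e l : W) := by
        rw [← h2]
      rw [h5, map_sum, LinearMap.sum_apply, Finset.sum_eq_single l]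
      · simp
      · intro m _ hm
        rw [map_smul, LinearMap.smul_apply, hee, if_neg hm]
        simp
      · intro h; exact absurd (Finset.mem_univ _) h
    rw [h4]; ring
  · intro u hu
    have := e.sum_sq_norm_inner_right (⟨u, hu⟩ : V)
    simp only [Real.norm_eq_abs, sq_abs] at this
    simpa using this.symm
  · intro g hg hgV
    let g' : Fin n → V := fun i => ⟨g i, hgV i⟩
    have hg' : Orthonormal ℝ g' := by
      rw [orthonormal_iff_ite] at hg ⊢
      intro i j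
      simpa [g'] using hg i j
    have hspan : ⊤ ≤ span ℝ (Set.range g') := by
      refine le_of_eq (LinearIndependent.span_eq_top_of_card_eq_finrank' hg'.linearIndependent ?_).symm
      simp [hn]
    let gb : OrthonormalBasis (Fin n) ℝ V := OrthonormalBasis.mk hg' hspan
    have hgb : ∀ i, gb i = g' i := by intro i; simp [gb]
    have t1 := LinearMap.trace_eq_sum_inner T gb
    have t2 := LinearMap.trace_eq_sum_inner T e
    have t3 : ∀ i, inner ℝ (gb i) (T (gb i)) = b (g i) (g i) := by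
      intro i
      rw [hgb, real_inner_comm, hT]
    have t4 : ∀ i, inner ℝ (e i) (T (e i)) = b (e i) (e i) := by
      intro i
      rw [real_inner_comm, hT]
    simp only [t3] at t1
    simp only [t4] at t2
    rw [← t1, ← t2]

/-- Upper Courant–Fischer step: if `V` has dimension `j+1` with the spectral basis, then
the quotient on the span of the first `i+1` vectors is at least the `i`-th value. -/
theorem span_first (b : W →ₗ[ℝ] W →ₗ[ℝ] ℝ) {n : ℕ} (f : Fin n → W)
    (hf : Orthonormal ℝ f) (horth : ∀ i j, i ≠ j → b (f i) (f j) = 0)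
    (hanti : Antitone fun i => b (f i) (f i)) (i : ℕ) (hi : i < n) :
    ∃ V : Submodule ℝ W, finrank ℝ V = i + 1 ∧
      ∀ u ∈ V, b (f ⟨i, hi⟩) (f ⟨i, hi⟩) * ‖u‖ ^ 2 ≤ b u u := by
  classical
  let c : Fin (i + 1) → Fin n := Fin.castLE hi
  have hc : Function.Injective c := Fin.castLE_injective hi
  let g : Fin (i + 1) → W := fun k => f (c k)
  have hg : Orthonormal ℝ g := hf.comp c hc
  refine ⟨span ℝ (Set.range g), ?_, ?_⟩
  · rw [finrank_span_eq_card hg.linearIndependent]; simp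
  · intro u hu
    obtain ⟨a, rfl⟩ := (Submodule.mem_span_range_iff_exists_fun ℝ).mp hu
    have h1 : ‖∑ k, a k • g k‖ ^ 2 = ∑ k, (a k) ^ 2 := by
      rw [← real_inner_self_eq_norm_sq, hg.inner_sum]
      refine Finset.sum_congr rfl fun k _ => ?_
      simp [sq]
    have h2 : b (∑ k, a k • g k) (∑ k, a k • g k) = ∑ k, (a k) ^ 2 * b (g k) (g k) := by
      simp only [map_sum, LinearMap.sum_apply]
      refine Finset.sum_congr rfl fun k _ => ?_
      rw [Finset.sum_eq_single k]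
      · simp only [map_smul, LinearMap.smul_apply, smul_eq_mul]; ring
      · intro m _ hm
        have : b (g m) (g k) = 0 := horth _ _ (fun h => hm (hc h))
        simp [this]
      · intro h; exact absurd (Finset.mem_univ _) h
    rw [h1, h2, Finset.mul_sum]
    refine Finset.sum_le_sum fun k _ => ?_
    have h3 : b (f ⟨i, hi⟩) (f ⟨i, hi⟩) ≤ b (g k) (g k) := by
      apply hanti
      rw [Fin.le_def]
      simp only [c, Fin.val_castLE]
      omega
    nlinarith [sq_nonneg (a k)]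

/-- Lower Courant–Fischer step. -/
theorem lower_step (b : W →ₗ[ℝ] W →ₗ[ℝ] ℝ) {n : ℕ} (f : Fin n → W) (V V' : Submodule ℝ W)
    (hanti : Antitone fun i => b (f i) (f i))
    (hb : ∀ u ∈ V, b u u = ∑ l, (inner ℝ (f l) u) ^ 2 * b (f l) (f l))
    (hnorm : ∀ u ∈ V, ‖u‖ ^ 2 = ∑ l, (inner ℝ (f l) u) ^ 2)
    (i : ℕ) (hi : i < n) (hle : V' ≤ V) (hdim : finrank ℝ V' = i + 1) (β : ℝ)
    (hβ : ∀ u ∈ V', β * ‖u‖ ^ 2 ≤ b u u) :
    β ≤ b (f ⟨i, hi⟩) (f ⟨i, hi⟩) := by
  classical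
  have : FiniteDimensional ℝ V' := FiniteDimensional.of_finrank_pos (by omega)
  let L : V' →ₗ[ℝ] (Fin i → ℝ) :=
    { toFun := fun u k => inner ℝ (f (Fin.castLE hi.le k)) (u : W)
      map_add' := by intro x y; ext k; simp [inner_add_right]
      map_smul' := by intro c x; ext k; simp [inner_smul_right] }
  have hker : LinearMap.ker L ≠ ⊥ := by
    apply LinearMap.ker_ne_bot_of_finrank_lt
    rw [hdim]; simp
  obtain ⟨u, hu, hu0⟩ := Submodule.exists_mem_ne_zero_of_ne_bot hker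
  have huk : ∀ k : Fin n, (k : ℕ) < i → inner ℝ (f k) (u : W) = 0 := by
    intro k hk
    have h1 : L u ⟨k, hk⟩ = 0 := by
      rw [LinearMap.mem_ker] at hu
      rw [hu]; rfl
    exact h1
  have hV : (u : W) ∈ V := hle u.2
  have hnu : 0 < ‖(u : W)‖ ^ 2 := by
    have : (u : W) ≠ 0 := by simpa using hu0
    positivity
  have h1 : b u u ≤ b (f ⟨i, hi⟩) (f ⟨i, hi⟩) * ‖(u : W)‖ ^ 2 := by
    rw [hb _ hV, hnorm _ hV, Finset.mul_sum]
    refine Finset.sum_le_sum fun k _ => ?_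
    rcases lt_or_ge (k : ℕ) i with h | h
    · rw [huk k h]; simp
    · have h2 : b (f k) (f k) ≤ b (f ⟨i, hi⟩) (f ⟨i, hi⟩) := hanti (by rw [Fin.le_def]; exact h)
      nlinarith [sq_nonneg (inner ℝ (f k) (u : W))]
  have h2 := hβ _ u.2
  nlinarith

/-- The min-max values of the pair (norm, `b`). -/
noncomputable def lamb (b : W →ₗ[ℝ] W →ₗ[ℝ] ℝ) (j : ℕ) : ℝ :=
  sInf {L : ℝ | ∃ V : Submodule ℝ W, finrank ℝ V = j + 1 ∧ ∀ u ∈ V, ‖u‖ ^ 2 ≤ L * b u u}

theorem exists_sub_finrank {V : Submodule ℝ W} {j : ℕ} (h : finrank ℝ V = j + 1 + 1) :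
    ∃ V' : Submodule ℝ W, V' ≤ V ∧ finrank ℝ V' = j + 1 := by
  have : FiniteDimensional ℝ V := FiniteDimensional.of_finrank_pos (by omega)
  obtain ⟨e⟩ : Nonempty (Basis (Fin (j + 1 + 1)) ℝ V) := ⟨finBasisOfFinrankEq ℝ V h⟩
  let g : Fin (j + 1) → W := fun k => (e k.castSucc : W)
  have hg : LinearIndependent ℝ g := by
    have h1 : LinearIndependent ℝ (fun k => (e k : W)) :=
      e.linearIndependent.map' V.subtype (Submodule.ker_subtype V)
    exact h1.comp _ (Fin.castSucc_injective _)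
  refine ⟨span ℝ (Set.range g), ?_, ?_⟩
  · rw [span_le]
    rintro _ ⟨k, rfl⟩
    exact (e k.castSucc).2
  · rw [finrank_span_eq_card hg]; simp

section lambfacts

variable (b : W →ₗ[ℝ] W →ₗ[ℝ] ℝ) (hp : ∀ u, 0 ≤ b u u)

include hp in
theorem mem_pos {j : ℕ} {L : ℝ} {V : Submodule ℝ W} (hV : finrank ℝ V = j + 1)
    (h : ∀ u ∈ V, ‖u‖ ^ 2 ≤ L * b u u) : 0 < L := by
  have : Nontrivial V := nontrivial_of_finrank_pos (R := ℝ) (by omega)
  obtain ⟨u, hu⟩ := exists_ne (0 : V)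
  have h1 : 0 < ‖(u : W)‖ ^ 2 := by
    have : (u : W) ≠ 0 := by simpa using hu
    positivity
  have h2 := h u u.2
  by_contra hL
  push Not at hL
  nlinarith [hp (u : W)]

theorem set_anti (j : ℕ) :
    {L : ℝ | ∃ V : Submodule ℝ W, finrank ℝ V = j + 1 + 1 ∧ ∀ u ∈ V, ‖u‖ ^ 2 ≤ L * b u u} ⊆
    {L : ℝ | ∃ V : Submodule ℝ W, finrank ℝ V = j + 1 ∧ ∀ u ∈ V, ‖u‖ ^ 2 ≤ L * b u u} := by
  rintro L ⟨V, hV, h⟩
  obtain ⟨V', hle, hV'⟩ := exists_sub_finrank hV
  exact ⟨V', hV', fun u hu => h u (hle hu)⟩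

include hp in
theorem set_bdd (j : ℕ) : BddBelow
    {L : ℝ | ∃ V : Submodule ℝ W, finrank ℝ V = j + 1 ∧ ∀ u ∈ V, ‖u‖ ^ 2 ≤ L * b u u} := by
  refine ⟨0, ?_⟩
  rintro L ⟨V, hV, h⟩
  exact (mem_pos b hp hV h).le

variable (hinf : Filter.Tendsto (lamb b) Filter.atTop Filter.atTop)

include hinf in
theorem set_nonempty (j : ℕ) : Set.Nonempty
    {L : ℝ | ∃ V : Submodule ℝ W, finrank ℝ V = j + 1 ∧ ∀ u ∈ V, ‖u‖ ^ 2 ≤ L * b u u} := by
  obtain ⟨N, hN⟩ := (hinf.eventually (Filter.eventually_gt_atTop 0)).exists_forall_of_atTop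
  have h1 : Set.Nonempty
    {L : ℝ | ∃ V : Submodule ℝ W, finrank ℝ V = (max N j) + 1 ∧ ∀ u ∈ V, ‖u‖ ^ 2 ≤ L * b u u} := by
    by_contra h
    rw [Set.not_nonempty_iff_eq_empty] at h
    have h2 := hN (max N j) (le_max_left _ _)
    rw [lamb, h, Real.sInf_empty] at h2
    exact lt_irrefl _ h2
  have h2 : ∀ m, j ≤ m → Set.Nonempty
    {L : ℝ | ∃ V : Submodule ℝ W, finrank ℝ V = m + 1 ∧ ∀ u ∈ V, ‖u‖ ^ 2 ≤ L * b u u} →
    Set.Nonempty
    {L : ℝ | ∃ V : Submodule ℝ W, finrank ℝ V = j + 1 ∧ ∀ u ∈ V, ‖u‖ ^ 2 ≤ L * b u u} := by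
    intro m hm
    induction m, hm using Nat.le_induction with
    | base => exact id
    | succ m _ ih => exact fun h => ih (h.mono (set_anti b m))
  exact h2 _ (le_max_right _ _) h1

include hp hinf in
theorem lamb_mono : Monotone (lamb b) := by
  refine monotone_nat_of_le_succ fun j => ?_
  exact csInf_le_csInf (set_bdd b hp j) (set_nonempty b hinf (j + 1)) (set_anti b j)

variable (h0 : 0 < lamb b 0)

include hp hinf h0 in
theorem lamb_pos (j : ℕ) : 0 < lamb b j := lt_of_lt_of_le h0 (lamb_mono b hp hinf (Nat.zero_le j))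

include hp hinf h0 in
/-- (F1) -/
theorem le_inv_lamb {j : ℕ} {V : Submodule ℝ W} (hV : finrank ℝ V = j + 1) {β : ℝ}
    (h : ∀ u ∈ V, β * ‖u‖ ^ 2 ≤ b u u) : β ≤ (lamb b j)⁻¹ := by
  rcases le_or_gt β 0 with hβ | hβ
  · exact hβ.trans (inv_pos.mpr (lamb_pos b hp hinf h0 j)).le
  · have h1 : lamb b j ≤ β⁻¹ := by
      refine csInf_le (set_bdd b hp j) ⟨V, hV, fun u hu => ?_⟩
      have := h u hu
      rw [inv_mul_eq_div, le_div_iff₀ hβ]
      linarith
    rw [le_inv_comm₀ hβ (lamb_pos b hp hinf h0 j)]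
    exact h1

include hinf h0 hp in
/-- (F2) -/
theorem exists_of_lt_inv_lamb {j : ℕ} {β : ℝ} (h : β < (lamb b j)⁻¹) :
    ∃ V : Submodule ℝ W, finrank ℝ V = j + 1 ∧ ∀ u ∈ V, β * ‖u‖ ^ 2 ≤ b u u := by
  have hl := lamb_pos b hp hinf h0 j
  rcases le_or_gt β 0 with hβ | hβ
  · obtain ⟨L, V, hV, -⟩ := set_nonempty b hinf j
    refine ⟨V, hV, fun u _ => ?_⟩
    nlinarith [hp u, sq_nonneg ‖u‖]
  · have h1 : lamb b j < β⁻¹ := by
      rw [lt_inv_comm₀ hl hβ]; exact h
    obtain ⟨L, ⟨V, hV, hL⟩, hlt⟩ := exists_lt_of_csInf_lt (set_nonempty b hinf j) h1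
    refine ⟨V, hV, fun u hu => ?_⟩
    have h2 := hL u hu
    have h3 : L * b u u ≤ β⁻¹ * b u u := mul_le_mul_of_nonneg_right hlt.le (hp u)
    have h4 : ‖u‖ ^ 2 ≤ β⁻¹ * b u u := h2.trans h3
    rw [inv_mul_eq_div, le_div_iff₀ hβ] at h4
    linarith

variable (hs : ∀ u v, b u v = b v u)

include hinf h0 hp hs in
/-- (S1): the sum over an orthonormal frame is at most the sum of the inverse min-max values. -/
theorem sum_frame_le {k : ℕ} (u : Fin k → W) (hu : Orthonormal ℝ u) :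
    ∑ i, b (u i) (u i) ≤ ∑ i : Fin k, (lamb b i)⁻¹ := by
  classical
  let V := span ℝ (Set.range u)
  have hV : finrank ℝ V = k := by
    simp only [V]
    rw [finrank_span_eq_card hu.linearIndependent]; simp
  have : FiniteDimensional ℝ V := FiniteDimensional.span_of_finite ℝ (Set.finite_range u)
  obtain ⟨f, hf, hfV, horth, hanti, hb, hnorm, htr⟩ := diag b hs V hV
  rw [htr u hu (fun i => subset_span ⟨i, rfl⟩)]
  refine Finset.sum_le_sum fun i _ => ?_
  obtain ⟨V', hV', h'⟩ := span_first b f hf horth hanti i i.2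
  exact le_inv_lamb b hp hinf h0 hV' h'

include hinf h0 hp in
theorem bound_lamb (u : W) : b u u ≤ (lamb b 0)⁻¹ * ‖u‖ ^ 2 := by
  rcases eq_or_ne u 0 with rfl | hu
  · simp
  · have hn : 0 < ‖u‖ ^ 2 := by positivity
    rw [← div_le_iff₀ hn]
    refine le_inv_lamb b hp hinf h0 (V := span ℝ {u}) ?_ ?_
    · rw [finrank_span_singleton hu]
    · intro v hv
      obtain ⟨c, rfl⟩ := mem_span_singleton.mp hv
      rw [norm_smul, mul_pow, Real.norm_eq_abs, sq_abs]
      simp only [map_smul, LinearMap.smul_apply, smul_eq_mul]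
      have : b u u / ‖u‖ ^ 2 * (c ^ 2 * ‖u‖ ^ 2) = c * (c * b u u) := by
        field_simp
      rw [this]

include hinf h0 hp hs in
/-- (S2): near-optimal frames. -/
theorem exists_frame (k : ℕ) {ε : ℝ} (hε : 0 < ε) :
    ∃ e : Fin k → W, Orthonormal ℝ e ∧ (∀ i j, i ≠ j → b (e i) (e j) = 0) ∧
      ∀ i : Fin k, (lamb b i)⁻¹ - ε ≤ b (e i) (e i) := by
  classical
  have h1 : ∀ i : Fin k, ∃ V : Submodule ℝ W, finrank ℝ V = i + 1 ∧
      ∀ u ∈ V, ((lamb b i)⁻¹ - ε) * ‖u‖ ^ 2 ≤ b u u := fun i =>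
    exists_of_lt_inv_lamb b hp hinf h0 (by linarith)
  choose V hV hVb using h1
  have hfin : ∀ i, FiniteDimensional ℝ (V i) := fun i =>
    FiniteDimensional.of_finrank_pos (by rw [hV]; omega)
  let X : Submodule ℝ W := ⨆ i, V i
  have hX : FiniteDimensional ℝ X := by
    simp only [X]
    infer_instance
  obtain ⟨f, hf, hfV, horth, hanti, hb, hnorm, htr⟩ := diag b hs X (n := finrank ℝ X) rfl
  have hk : k ≤ finrank ℝ X := by
    rcases Nat.eq_zero_or_pos k with rfl | hk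
    · exact Nat.zero_le _
    · have h2 : finrank ℝ (V ⟨k - 1, by omega⟩) ≤ finrank ℝ X :=
        Submodule.finrank_mono (le_iSup V _)
      rw [hV] at h2
      simp only at h2
      omega
  refine ⟨fun i => f (Fin.castLE hk i), hf.comp _ (Fin.castLE_injective hk), ?_, ?_⟩
  · intro i j hij
    exact horth _ _ (fun h => hij (Fin.castLE_injective hk h))
  · intro i
    exact lower_step b f X (V i) hanti hb hnorm i (by omega) (le_iSup V i) (hV i) _ (hVb i)

end lambfacts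

end Pool.Agent.LQG65
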